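import Mathlib

/-!
Algebra behind the rank generating function of a differential poset.
-/

open Finset

namespace Pool.Agent.Helper15.Heis

/-- Coefficients of `exp (t + t^2 / (2 r))`. -/
noncomputable def kap (r : ℚ) : ℕ → ℚ
  | 0 => 1
  | 1 => 1
  | (n + 2) => (kap r (n + 1) + kap r n / r) / (n + 2)

lemma kap_zero (r : ℚ) : kap r 0 = 1 := by simp [kap]
lemma kap_one (r : ℚ) : kap r 1 = 1 := by simp [kap]

lemma kap_rec (r : ℚ) (n : ℕ) : ((n : ℚ) + 2) * kap r (n + 2) = kap r (n + 1) + kap r n / r := by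
  rw [kap]
  have : ((n : ℚ) + 2) ≠ 0 := by positivity
  field_simp

section Abstract

variable {E : Type*} [AddCommGroup E] [Module ℚ E] (U D : E →ₗ[ℚ] E) (r : ℚ)

/-- The primitive components of the sequence `e`. -/
noncomputable def vv (e : ℕ → E) : ℕ → E
  | n => e n - ∑ k : Fin n, kap r (n - k) • ((U ^ (n - (k : ℕ))) (vv e k))

lemma vv_eq (e : ℕ → E) (n : ℕ) :
    e n = ∑ k ∈ range (n + 1), kap r (n - k) • ((U ^ (n - k)) (vv U r e k)) := by
  rw [Finset.sum_range_succ, Nat.sub_self, kap_zero, one_smul, pow_zero, Module.End.one_apply]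
  rw [Finset.sum_range (fun k => kap r (n - k) • ((U ^ (n - k)) (vv U r e k)))]
  conv_rhs => rw [vv]
  abel

variable {U D r}

lemma D_pow (hcomm : ∀ x, D (U x) = U (D x) + r • x) {x : E} (hx : D x = 0) (j : ℕ) :
    D ((U ^ (j + 1)) x) = (r * (j + 1)) • ((U ^ j) x) := by
  induction j with
  | zero => simp [hcomm, hx]
  | succ j ih =>
    rw [pow_succ', Module.End.mul_apply, hcomm, ih, map_smul]
    rw [← Module.End.mul_apply U (U ^ j), ← pow_succ', ← add_smul]
    congr 1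
    push_cast
    ring

lemma D_vv (hr : r ≠ 0) (hcomm : ∀ x, D (U x) = U (D x) + r • x) (e : ℕ → E)
    (h0 : D (e 0) = 0) (h1 : D (e 1) = r • e 0)
    (h2 : ∀ n, D (e (n + 2)) = U (e n) + r • e (n + 1)) : ∀ n, D (vv U r e n) = 0 := by
  intro n
  induction n using Nat.strong_induction_on with
  | _ n ih =>
  have hv : vv U r e n = e n - ∑ k ∈ range n, kap r (n - k) • ((U ^ (n - k)) (vv U r e k)) := by
    rw [Finset.sum_range (fun k => kap r (n - k) • ((U ^ (n - k)) (vv U r e k)))]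
    rw [vv]
  match n, ih, hv with
  | 0, _, hv => rw [hv]; simpa using h0
  | 1, ih, hv =>
    have hv0 : vv U r e 0 = e 0 := by rw [vv]; simp
    rw [hv]
    simp only [Finset.sum_range_one, Nat.sub_zero, kap_one, one_smul, pow_one, map_sub, hv0]
    rw [hcomm, h0, h1, map_zero, zero_add, sub_self]
  | (n + 2), ih, hv =>
    rw [hv, map_sub, map_sum, h2, sub_eq_zero]
    have hterm : ∀ k ∈ range (n + 2),
        D (kap r (n + 2 - k) • ((U ^ (n + 2 - k)) (vv U r e k))) =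
          (r * kap r (n + 1 - k)) • ((U ^ (n + 1 - k)) (vv U r e k)) +
          (if k ∈ range (n + 1) then kap r (n - k) • (U ((U ^ (n - k)) (vv U r e k))) else 0) := by
      intro k hk
      rw [Finset.mem_range] at hk
      have hDk := ih k hk
      rw [map_smul]
      by_cases hk1 : k = n + 1
      · subst hk1
        have e1 : n + 2 - (n + 1) = 0 + 1 := by omega
        have e2 : n + 1 - (n + 1) = 0 := by omega
        rw [e1, e2, D_pow hcomm hDk]
        simp [kap_zero, kap_one]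
      · have hk2 : k < n + 1 := by omega
        obtain ⟨j, hj⟩ : ∃ j, n - k = j := ⟨_, rfl⟩
        have e1 : n + 2 - k = (j + 1) + 1 := by omega
        have e2 : n + 1 - k = j + 1 := by omega
        rw [if_pos (Finset.mem_range.2 hk2), e1, e2, hj, D_pow hcomm hDk]
        rw [← Module.End.mul_apply U (U ^ j), ← pow_succ', smul_smul, ← add_smul]
        congr 1
        have := kap_rec r j
        push_cast
        have h3 : kap r (j + 1 + 1) * (r * ((j : ℚ) + 1 + 1)) =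
            r * (((j : ℚ) + 2) * kap r (j + 2)) := by ring_nf
        rw [h3, this]
        field_simp
    rw [Finset.sum_congr rfl hterm, Finset.sum_add_distrib]
    have s1 : ∑ k ∈ range (n + 2), (r * kap r (n + 1 - k)) • ((U ^ (n + 1 - k)) (vv U r e k)) =
        r • e (n + 1) := by
      conv_rhs => rw [vv_eq U r e (n + 1), Finset.smul_sum]
      apply Finset.sum_congr rfl
      intro k _
      rw [smul_smul]
    have s2 : ∑ k ∈ range (n + 2), (if k ∈ range (n + 1) then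
        kap r (n - k) • (U ((U ^ (n - k)) (vv U r e k))) else 0) = U (e n) := by
      rw [Finset.sum_range_succ, if_neg (by simp), add_zero]
      conv_rhs => rw [vv_eq U r e n, map_sum]
      apply Finset.sum_congr rfl
      intro k hk
      rw [if_pos hk, map_smul]
    rw [s1, s2, add_comm]

variable {B : ℕ → E →ₗ[ℚ] E →ₗ[ℚ] ℚ}

lemma form_pow (hcomm : ∀ x, D (U x) = U (D x) + r • x)
    (hadj : ∀ N x y, B (N + 1) (U x) y = B N x (D y)) {x y : E} (hy : D y = 0) (k j : ℕ) :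
    B (k + j) ((U ^ j) x) ((U ^ j) y) = r ^ j * (j.factorial : ℚ) * B k x y := by
  induction j with
  | zero => simp
  | succ j ih =>
    rw [← add_assoc]
    conv_lhs => rw [pow_succ' U j, Module.End.mul_apply, hadj]
    rw [← pow_succ', D_pow hcomm hy, map_smul, ih]
    rw [Nat.factorial_succ, smul_eq_mul]
    push_cast
    ring

lemma form_pow_ne (hcomm : ∀ x, D (U x) = U (D x) + r • x)
    (hadj : ∀ N x y, B (N + 1) (U x) y = B N x (D y)) (hsymm : ∀ N x y, B N x y = B N y x)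
    {x y : E} (hx : D x = 0) (hy : D y = 0) :
    ∀ i j : ℕ, i ≠ j → ∀ N, i ≤ N → j ≤ N → B N ((U ^ i) x) ((U ^ j) y) = 0 := by
  intro i
  induction i with
  | zero =>
    intro j hj N _ hjN
    obtain ⟨j, rfl⟩ : ∃ j', j = j' + 1 := ⟨j - 1, by omega⟩
    obtain ⟨N, rfl⟩ : ∃ N', N = N' + 1 := ⟨N - 1, by omega⟩
    rw [hsymm, pow_succ', Module.End.mul_apply, hadj, pow_zero, Module.End.one_apply, hx, map_zero]
  | succ i ih =>
    intro j hj N hiN hjN
    obtain ⟨N, rfl⟩ : ∃ N', N = N' + 1 := ⟨N - 1, by omega⟩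
    rw [pow_succ', Module.End.mul_apply, hadj]
    match j, hj, hjN with
    | 0, _, _ => rw [pow_zero, Module.End.one_apply, hy, map_zero]
    | (j + 1), hj, hjN =>
      rw [D_pow hcomm hy, map_smul, ih j (by omega) N (by omega) (by omega), smul_zero]

/-- The coefficients of `(1 - q^2)^(-1/2) exp (r q / (1 - q))`. -/
noncomputable def ff (r : ℚ) (j : ℕ) : ℚ := kap r j ^ 2 * r ^ j * (j.factorial : ℚ)

/-- The squared norms of the members of `e` as a convolution. -/
theorem norm_eq (hr : r ≠ 0) (hcomm : ∀ x, D (U x) = U (D x) + r • x) (e : ℕ → E)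
    (h0 : D (e 0) = 0) (h1 : D (e 1) = r • e 0)
    (h2 : ∀ n, D (e (n + 2)) = U (e n) + r • e (n + 1))
    (hadj : ∀ N x y, B (N + 1) (U x) y = B N x (D y)) (hsymm : ∀ N x y, B N x y = B N y x)
    (n : ℕ) :
    B n (e n) (e n) =
      ∑ k ∈ range (n + 1), ff r (n - k) * B k (vv U r e k) (vv U r e k) := by
  have hD := D_vv hr hcomm e h0 h1 h2
  conv_lhs => rw [vv_eq U r e n]
  simp only [map_sum, LinearMap.sum_apply, map_smul, LinearMap.smul_apply, smul_eq_mul]
  apply Finset.sum_congr rfl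
  intro k hk
  rw [Finset.mem_range] at hk
  rw [Finset.sum_eq_single k]
  · have h3 := form_pow (B := B) hcomm hadj (x := vv U r e k) (hD k) k (n - k)
    have h4 : k + (n - k) = n := by omega
    rw [h4] at h3
    rw [h3]
    unfold ff
    ring
  · intro l hl hlk
    rw [Finset.mem_range] at hl
    rw [form_pow_ne hcomm hadj hsymm (hD _) (hD _) (n - l) (n - k) (by omega) n (by omega)
      (by omega)]
    ring
  · intro h
    exact absurd (Finset.mem_range.2 hk) h

end Abstract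

section Series

open PowerSeries

variable {r : ℚ}

lemma ff_zero : ff r 0 = 1 := by simp [ff, kap_zero]
lemma ff_one : ff r 1 = r := by simp [ff, kap_one]

/-- Auxiliary mixed products. -/
noncomputable def cc (r : ℚ) (j : ℕ) : ℚ :=
  kap r (j + 1) * kap r j * r ^ (j + 1) * ((j + 1).factorial : ℚ)

lemma ff_rec1 (hr : r ≠ 0) (j : ℕ) :
    ((j : ℚ) + 2) * ff r (j + 2) = r * ff r (j + 1) + 2 * cc r j + (j + 1) * ff r j := by
  unfold ff cc
  have h := kap_rec r j
  have h2 : (((j + 2).factorial : ℕ) : ℚ) = (j + 2) * (((j + 1).factorial : ℕ) : ℚ) := by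
    rw [Nat.factorial_succ (j + 1)]; push_cast; ring
  have h3 : (((j + 1).factorial : ℕ) : ℚ) = (j + 1) * ((j.factorial : ℕ) : ℚ) := by
    rw [Nat.factorial_succ j]; push_cast; ring
  have h4 : ((j : ℚ) + 2) * (kap r (j + 2) ^ 2 * r ^ (j + 2) * ((j + 2).factorial : ℚ)) =
      (((j : ℚ) + 2) * kap r (j + 2)) ^ 2 * r ^ (j + 2) * ((j + 1).factorial : ℚ) := by
    rw [h2]; ring
  rw [h4, h, h3]
  field_simp
  ring

lemma cc_rec (hr : r ≠ 0) (j : ℕ) : cc r (j + 1) = r * ff r (j + 1) + cc r j := by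
  unfold ff cc
  have h := kap_rec r j
  have h2 : (((j + 1 + 1).factorial : ℕ) : ℚ) = (j + 2) * (((j + 1).factorial : ℕ) : ℚ) := by
    rw [Nat.factorial_succ (j + 1)]; push_cast; ring
  have h4 : kap r (j + 1 + 1) * kap r (j + 1) * r ^ (j + 1 + 1) * ((j + 1 + 1).factorial : ℚ) =
      (((j : ℚ) + 2) * kap r (j + 2)) * kap r (j + 1) * r ^ (j + 2) * ((j + 1).factorial : ℚ) := by
    rw [h2]; ring
  rw [h4, h]
  field_simp
  ring

lemma ff_rec (hr : r ≠ 0) (j : ℕ) :
    ((j : ℚ) + 3) * ff r (j + 3) =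
      (r + j + 2) * ff r (j + 2) + (r + j + 2) * ff r (j + 1) - (j + 1) * ff r j := by
  have h1 := ff_rec1 hr j
  have h2 := ff_rec1 hr (j + 1)
  have h3 := cc_rec hr j
  push_cast at h2
  have e1 : j + 1 + 2 = j + 3 := rfl
  have e2 : j + 1 + 1 = j + 2 := rfl
  rw [e1, e2] at h2
  linarith

lemma ff_two (hr : r ≠ 0) : 2 * ff r 2 = r * r + 2 * r + 1 := by
  have h := ff_rec1 hr 0
  have h2 : cc r 0 = r := by simp [cc, kap_zero, kap_one]
  rw [h2, zero_add, zero_add, ff_zero, ff_one] at h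
  push_cast at h
  linarith

lemma ode_F (hr : r ≠ 0) :
    (1 - X - X ^ 2 + X ^ 3 : ℚ⟦X⟧) * d⁄dX ℚ (PowerSeries.mk (ff r)) =
      (C r + (C r + 1) * X - X ^ 2) * PowerSeries.mk (ff r) := by
  ext n
  have hX1 : ∀ (φ : ℚ⟦X⟧) (n : ℕ), coeff (n + 1) (X * φ) = coeff n φ :=
    fun φ n => coeff_succ_X_mul n φ
  have hX0 : ∀ (φ : ℚ⟦X⟧), coeff 0 (X * φ) = 0 := fun φ => coeff_zero_X_mul φ
  have expand1 : (1 - X - X ^ 2 + X ^ 3 : ℚ⟦X⟧) * d⁄dX ℚ (PowerSeries.mk (ff r)) =
      d⁄dX ℚ (PowerSeries.mk (ff r)) - X * d⁄dX ℚ (PowerSeries.mk (ff r)) - X * (X * d⁄dX ℚ (PowerSeries.mk (ff r))) +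
        X * (X * (X * d⁄dX ℚ (PowerSeries.mk (ff r)))) := by ring
  obtain ⟨c, hc⟩ : ∃ c, c = r + 1 := ⟨_, rfl⟩
  have expand2 : (C r + (C r + 1) * X - X ^ 2 : ℚ⟦X⟧) * PowerSeries.mk (ff r) =
      C r * PowerSeries.mk (ff r) + C c * (X * PowerSeries.mk (ff r)) -
        X * (X * PowerSeries.mk (ff r)) := by
    rw [hc, map_add, map_one]
    ring
  rw [expand1, expand2]
  have hd : ∀ n, coeff n (d⁄dX ℚ (PowerSeries.mk (ff r))) = ff r (n + 1) * ((n : ℚ) + 1) := by
    intro n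
    rw [coeff_derivative, coeff_mk]
  match n with
  | 0 =>
    simp only [map_add, map_sub, hX0, hd, coeff_C_mul, coeff_mk]
    simp [ff_zero, ff_one]
  | 1 =>
    simp only [map_add, map_sub, hX1, hX0, hd, coeff_C_mul, coeff_mk, zero_add]
    have := ff_two hr
    simp only [ff_zero, ff_one]
    push_cast
    norm_num
    linarith
  | 2 =>
    simp only [map_add, map_sub, hX1, hX0, hd, coeff_C_mul, coeff_mk, zero_add]
    have h3 := ff_rec hr 0
    simp only [zero_add] at h3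
    push_cast at h3
    have h2 := ff_two hr
    simp only [ff_zero, ff_one] at h3 ⊢
    push_cast
    norm_num
    rw [hc]
    linarith
  | (n + 3) =>
    simp only [hX1, hd, map_add, map_sub, coeff_C_mul, coeff_mk]
    have h3 := ff_rec hr (n + 1)
    push_cast at h3 ⊢
    have e1 : n + 1 + 3 = n + 4 := rfl
    have e2 : n + 3 + 1 = n + 4 := rfl
    have e3 : n + 2 + 1 = n + 3 := rfl
    have e4 : n + 1 + 2 = n + 3 := rfl
    have e5 : n + 1 + 1 = n + 2 := rfl
    rw [e1, e4, e5] at h3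
    rw [e2, e3, e5, hc]
    linarith

/-- The coefficients of the logarithmic derivative of `(1 - q)^r F`. -/
noncomputable def bb (r : ℚ) (k : ℕ) : ℚ := r * k + (if k % 2 = 1 then 1 else 0)

lemma bb_nonneg (hr : 0 ≤ r) (k : ℕ) : 0 ≤ bb r k := by
  unfold bb
  split_ifs <;> positivity

lemma bb_pos (hr : 0 < r) {k : ℕ} (hk : 0 < k) : 0 < bb r k := by
  unfold bb
  split_ifs <;> positivity

lemma bb_series (c₁ c₂ : ℚ) (h₁ : c₁ = r + 1) (h₂ : c₂ = r - 1) :
    (1 - X - X ^ 2 + X ^ 3 : ℚ⟦X⟧) * PowerSeries.mk (bb r) = C c₁ * X + C c₂ * X ^ 2 := by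
  ext n
  have hX1 : ∀ (φ : ℚ⟦X⟧) (n : ℕ), coeff (n + 1) (X * φ) = coeff n φ :=
    fun φ n => coeff_succ_X_mul n φ
  have hX0 : ∀ (φ : ℚ⟦X⟧), coeff 0 (X * φ) = 0 := fun φ => coeff_zero_X_mul φ
  have expand1 : (1 - X - X ^ 2 + X ^ 3 : ℚ⟦X⟧) * PowerSeries.mk (bb r) =
      PowerSeries.mk (bb r) - X * PowerSeries.mk (bb r) - X * (X * PowerSeries.mk (bb r)) + X * (X * (X * PowerSeries.mk (bb r))) := by ring
  have expand2 : (C c₁ * X + C c₂ * X ^ 2 : ℚ⟦X⟧) =
      C c₁ * (X * 1) + C c₂ * (X * (X * 1)) := by ring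
  rw [expand1, expand2]
  match n with
  | 0 => simp [bb]
  | 1 =>
    simp only [map_add, map_sub, hX1, hX0, coeff_C_mul, coeff_mk]
    simp [bb, h₁]
  | 2 =>
    simp only [map_add, map_sub, hX1, hX0, coeff_C_mul, coeff_mk]
    simp [bb, coeff_one, h₂]
    ring
  | (n + 3) =>
    simp only [hX1, map_add, map_sub, coeff_C_mul, coeff_mk]
    simp only [bb]
    have h1 : (n + 2) % 2 = n % 2 := by omega
    have h2 : (n + 3) % 2 = (n + 1) % 2 := by omega
    rw [h1, h2]
    simp [coeff_one]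
    ring

/-- The series `(1 - q)^m F` satisfies a first-order equation with nonnegative coefficients. -/
lemma ode_G (m : ℕ) (hm : 0 < m) :
    d⁄dX ℚ ((1 - X) ^ m * PowerSeries.mk (ff (m : ℚ))) = PowerSeries.mk (bb (m : ℚ)) * ((1 - X) ^ m * PowerSeries.mk (ff (m : ℚ))) := by
  have hr : (m : ℚ) ≠ 0 := by exact_mod_cast hm.ne'
  have hF := ode_F hr
  have hb := bb_series (r := (m : ℚ)) _ _ rfl rfl
  set F := PowerSeries.mk (ff (m : ℚ)) with hFdef
  set b := PowerSeries.mk (bb (m : ℚ)) with hbdef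
  obtain ⟨k, rfl⟩ : ∃ k, m = k + 1 := ⟨m - 1, by omega⟩
  have hne : (1 - X - X ^ 2 + X ^ 3 : ℚ⟦X⟧) ≠ 0 := by
    intro h
    have := congrArg (coeff 0) h
    simp at this
  apply mul_left_cancel₀ hne
  have hder : d⁄dX ℚ ((1 - X) ^ (k + 1) * F) =
      (1 - X) ^ (k + 1) * d⁄dX ℚ F - C ((k : ℚ) + 1) * (1 - X) ^ k * F := by
    rw [Derivation.leibniz, Derivation.leibniz_pow]
    simp only [map_sub, map_one, Derivation.map_one_eq_zero, smul_eq_mul, derivative_X, zero_sub,
      Nat.add_sub_cancel, nsmul_eq_mul, map_add, map_natCast]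
    push_cast
    ring
  rw [hder]
  have e1 : (1 - X - X ^ 2 + X ^ 3 : ℚ⟦X⟧) * ((1 - X) ^ (k + 1) * d⁄dX ℚ F -
      C ((k : ℚ) + 1) * (1 - X) ^ k * F) =
      (1 - X) ^ (k + 1) * ((1 - X - X ^ 2 + X ^ 3 : ℚ⟦X⟧) * d⁄dX ℚ F) -
      C ((k : ℚ) + 1) * ((1 - X) ^ (k + 1) * (1 - X ^ 2)) * F := by
    ring
  rw [e1, hF]
  have e2 : (1 - X - X ^ 2 + X ^ 3 : ℚ⟦X⟧) * (b * ((1 - X) ^ (k + 1) * F)) =
      ((1 - X - X ^ 2 + X ^ 3 : ℚ⟦X⟧) * b) * ((1 - X) ^ (k + 1) * F) := by ring
  rw [e2, hb]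
  push_cast
  simp only [map_add, map_sub, map_one]
  ring

lemma coeff_G (m : ℕ) (hm : 0 < m) (n : ℕ) :
    0 ≤ coeff n ((1 - X) ^ m * PowerSeries.mk (ff (m : ℚ))) ∧
      (n ≠ 1 → 0 < coeff n ((1 - X) ^ m * PowerSeries.mk (ff (m : ℚ)))) := by
  set G := (1 - X) ^ m * PowerSeries.mk (ff (m : ℚ)) with hG
  have hode := ode_G m hm
  rw [← hG] at hode
  have hmq : (0 : ℚ) < m := by exact_mod_cast hm
  have hG0 : coeff 0 G = 1 := by
    rw [hG, coeff_zero_eq_constantCoeff_apply, map_mul, map_pow, map_sub, map_one,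
      constantCoeff_X, sub_zero, one_pow, one_mul, ← coeff_zero_eq_constantCoeff_apply, coeff_mk,
      ff_zero]
  clear_value G
  induction n using Nat.strong_induction_on with
  | _ n ih =>
  match n, ih with
  | 0, _ => rw [hG0]; exact ⟨zero_le_one, fun _ => zero_lt_one⟩
  | (n + 1), ih =>
    have h1 := congrArg (coeff n) hode
    rw [coeff_derivative, coeff_mul n (PowerSeries.mk (bb (m : ℚ))) G] at h1
    have hpos : (0 : ℚ) < (n : ℚ) + 1 := by positivity
    have hnn : ∀ p ∈ antidiagonal n, 0 ≤ coeff p.1 (PowerSeries.mk (bb (m : ℚ))) * coeff p.2 G := by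
      intro p hp
      rw [Finset.HasAntidiagonal.mem_antidiagonal] at hp
      rw [coeff_mk]
      exact mul_nonneg (bb_nonneg hmq.le _) (ih p.2 (by omega)).1
    have hsum : 0 ≤ coeff (n + 1) G * ((n : ℚ) + 1) := by
      rw [h1]; exact Finset.sum_nonneg hnn
    refine ⟨nonneg_of_mul_nonneg_left hsum hpos, ?_⟩
    intro hn
    have hn0 : 0 < n := by omega
    have hmem : ((n, 0) : ℕ × ℕ) ∈ Finset.HasAntidiagonal.antidiagonal n :=
      Finset.HasAntidiagonal.mem_antidiagonal.2 (Nat.add_zero n)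
    have h2 : bb (m : ℚ) n ≤ coeff (n + 1) G * ((n : ℚ) + 1) := by
      rw [h1]
      have h4 := Finset.single_le_sum hnn hmem
      rwa [hG0, mul_one, coeff_mk] at h4
    have h3 := lt_of_lt_of_le (bb_pos hmq hn0) h2
    exact (mul_pos_iff_of_pos_right hpos).1 h3

end Series

end Pool.Agent.Helper15.Heis
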