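import Mathlib

/-!
Linear matroid parity (Lovász): the covering half of the min-max theorem for a
maximal set of two-dimensional subspaces.
-/

open Module Submodule

namespace Pool.Agent.Helper15

section Basic

open scoped Classical

variable {F : Type*} [Field F] {V : Type*} [AddCommGroup V] [Module F V]

/-- The sum of a finite set of subspaces. -/
noncomputable def sp (M : Finset (Submodule F V)) : Submodule F V := M.sup id

lemma sp_mono {M N : Finset (Submodule F V)} (h : M ⊆ N) : sp M ≤ sp N :=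
  Finset.sup_mono h

lemma le_sp {M : Finset (Submodule F V)} {L : Submodule F V} (h : L ∈ M) : L ≤ sp M :=
  Finset.le_sup (f := id) h

lemma sp_insert (L : Submodule F V) (M : Finset (Submodule F V)) :
    sp (insert L M) = L ⊔ sp M := by
  simp [sp]

lemma sp_singleton (L : Submodule F V) : sp {L} = L := by simp [sp]

lemma sp_empty : sp (∅ : Finset (Submodule F V)) = ⊥ := by simp [sp]

lemma sp_union (M N : Finset (Submodule F V)) : sp (M ∪ N) = sp M ⊔ sp N := by
  simp [sp, Finset.sup_union]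

/-- A finite set of planes (two-dimensional subspaces) whose sum is direct. -/
def Mat (M : Finset (Submodule F V)) : Prop :=
  (∀ L ∈ M, finrank F L = 2) ∧ finrank F (sp M) = 2 * M.card

variable [FiniteDimensional F V]

lemma finrank_sp_le {M : Finset (Submodule F V)} (h : ∀ L ∈ M, finrank F L = 2) :
    finrank F (sp M) ≤ 2 * M.card := by
  induction M using Finset.induction_on with
  | empty => simp [sp_empty]
  | insert L M hL ih =>
    rw [sp_insert, Finset.card_insert_of_notMem hL]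
    have h1 := Submodule.finrank_add_le_finrank_add_finrank L (sp M)
    have h2 := ih (fun L' hL' => h L' (Finset.mem_insert_of_mem hL'))
    have h3 := h L (Finset.mem_insert_self _ _)
    have h4 : finrank F ↥(L ⊔ sp M) ≤ finrank F L + finrank F (sp M) := h1
    omega

lemma Mat.subset {M N : Finset (Submodule F V)} (hM : Mat M) (h : N ⊆ M) : Mat N := by
  refine ⟨fun L hL => hM.1 L (h hL), ?_⟩
  have h1 := finrank_sp_le (fun L hL => hM.1 L (h hL))
  have h2 := finrank_sp_le (M := M \ N) (fun L hL => hM.1 L (Finset.mem_sdiff.1 hL).1)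
  have h3 : sp M = sp N ⊔ sp (M \ N) := by
    rw [← sp_union, Finset.union_sdiff_of_subset h]
  have h4 := Submodule.finrank_add_le_finrank_add_finrank (sp N) (sp (M \ N))
  have h5 : finrank F ↥(sp N ⊔ sp (M \ N)) ≤ finrank F (sp N) + finrank F (sp (M \ N)) := h4
  rw [← h3, hM.2] at h5
  have h6 := Finset.card_sdiff_add_card_eq_card h
  omega

lemma Mat.inter {M S T : Finset (Submodule F V)} (hM : Mat M) (hS : S ⊆ M) (hT : T ⊆ M) :
    sp S ⊓ sp T = sp (S ∩ T) := by
  symm
  apply Submodule.eq_of_le_of_finrank_eq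
  · exact le_inf (sp_mono Finset.inter_subset_left) (sp_mono Finset.inter_subset_right)
  · have h1 := Submodule.finrank_sup_add_finrank_inf_eq (sp S) (sp T)
    rw [← sp_union] at h1
    have h2 := (hM.subset hS).2
    have h3 := (hM.subset hT).2
    have h4 := (hM.subset (Finset.union_subset hS hT)).2
    have h5 := (hM.subset (Finset.inter_subset_left.trans hS : S ∩ T ⊆ M)).2
    have h6 := Finset.card_union_add_card_inter S T
    omega

lemma Mat.disj {M R : Finset (Submodule F V)} (hM : Mat M) {L : Submodule F V} (hL : L ∈ M)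
    (hR : R ⊆ M) (hLR : L ∉ R) : L ⊓ sp R = ⊥ := by
  have h := hM.inter (S := {L}) (T := R) (by simpa using hL) hR
  rw [sp_singleton] at h
  rw [h, Finset.singleton_inter_of_notMem hLR, sp_empty]

lemma mat_insert {M : Finset (Submodule F V)} (hM : Mat M) {L : Submodule F V}
    (hL : finrank F L = 2) (h : L ⊓ sp M = ⊥) : L ∉ M ∧ Mat (insert L M) := by
  have hLM : L ∉ M := by
    intro hmem
    have : L ⊓ sp M = L := inf_eq_left.2 (le_sp hmem)
    rw [this] at h
    rw [h] at hL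
    simp at hL
  refine ⟨hLM, ?_, ?_⟩
  · intro L' hL'
    rcases Finset.mem_insert.1 hL' with rfl | h'
    · exact hL
    · exact hM.1 L' h'
  · rw [sp_insert, Finset.card_insert_of_notMem hLM]
    have h1 := Submodule.finrank_sup_add_finrank_inf_eq L (sp M)
    rw [h, finrank_bot, hL, hM.2] at h1
    omega

omit [FiniteDimensional F V] in
lemma exists_rep {M : Finset (Submodule F V)} {p : V} (hp : p ∈ sp M) :
    ∃ f : Submodule F V → V, (∀ G ∈ M, f G ∈ G) ∧ ∑ G ∈ M, f G = p := by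
  induction M using Finset.induction_on generalizing p with
  | empty =>
    rw [sp_empty, Submodule.mem_bot] at hp
    exact ⟨fun _ => 0, by simp, by simp [hp]⟩
  | insert L M hL ih =>
    rw [sp_insert, Submodule.mem_sup] at hp
    obtain ⟨y, hy, z, hz, rfl⟩ := hp
    obtain ⟨f, hf, hfs⟩ := ih hz
    refine ⟨fun G => if G = L then y else f G, ?_, ?_⟩
    · intro G hG
      by_cases h : G = L
      · subst h; simpa using hy
      · simp only [h, if_false]
        exact hf G ((Finset.mem_insert.1 hG).resolve_left h)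
    · rw [Finset.sum_insert hL]
      simp only [if_true]
      congr 1
      rw [← hfs]
      apply Finset.sum_congr rfl
      intro G hG
      have : G ≠ L := fun h => hL (h ▸ hG)
      simp [this]

omit [FiniteDimensional F V] in
lemma sum_mem_sp {M : Finset (Submodule F V)} {f : Submodule F V → V}
    (hf : ∀ G ∈ M, f G ∈ G) : ∑ G ∈ M, f G ∈ sp M :=
  Submodule.sum_mem _ (fun G hG => le_sp hG (hf G hG))

lemma Mat.zero {M : Finset (Submodule F V)} (hM : Mat M) {f : Submodule F V → V}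
    (hf : ∀ G ∈ M, f G ∈ G) (h : ∑ G ∈ M, f G = 0) : ∀ G ∈ M, f G = 0 := by
  intro G hG
  have h1 : f G + ∑ G' ∈ M.erase G, f G' = 0 := by rw [Finset.add_sum_erase _ _ hG, h]
  have h2 : f G = -∑ G' ∈ M.erase G, f G' := eq_neg_of_add_eq_zero_left h1
  have h3 : f G ∈ sp (M.erase G) := by
    rw [h2]
    exact Submodule.neg_mem _ (sum_mem_sp (fun G' hG' => hf G' (Finset.mem_of_mem_erase hG')))
  have h4 := hM.disj hG (Finset.erase_subset G M) (Finset.notMem_erase G M)
  have h5 : f G ∈ G ⊓ sp (M.erase G) := ⟨hf G hG, h3⟩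
  rwa [h4, Submodule.mem_bot] at h5

/-- If `p` lies in the sum of `M` and in the sum of `M` minus `G` for each `G` outside `R`,
then it lies in the sum of `R`. -/
lemma Mat.mem_of_forall {M : Finset (Submodule F V)} (hM : Mat M) {p : V} (hp : p ∈ sp M) :
    ∀ n : ℕ, ∀ R : Finset (Submodule F V), R ⊆ M → (M \ R).card = n →
      (∀ G ∈ M, G ∉ R → p ∈ sp (M.erase G)) → p ∈ sp R := by
  intro n
  induction n with
  | zero =>
    intro R hR hc _
    rw [Finset.card_eq_zero, Finset.sdiff_eq_empty_iff_subset] at hc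
    rwa [Finset.Subset.antisymm hR hc]
  | succ n ih =>
    intro R hR hc h
    have hne : (M \ R).Nonempty := by rw [← Finset.card_pos]; omega
    obtain ⟨G, hG⟩ := hne
    rw [Finset.mem_sdiff] at hG
    have h1 : p ∈ sp (insert G R) := by
      apply ih
      · exact Finset.insert_subset hG.1 hR
      · have : M \ insert G R = (M \ R).erase G := by
          ext x; simp only [Finset.mem_sdiff, Finset.mem_insert, Finset.mem_erase, not_or]; tauto
        rw [this, Finset.card_erase_of_mem (Finset.mem_sdiff.2 hG)]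
        omega
      · intro G' hG' hG'R
        exact h G' hG' (fun hh => hG'R (Finset.mem_insert_of_mem hh))
    have h2 : p ∈ sp (M.erase G) := h G hG.1 hG.2
    have h3 := hM.inter (Finset.insert_subset hG.1 hR) (Finset.erase_subset G M)
    have h4 : p ∈ sp (insert G R ∩ M.erase G) := by rw [← h3]; exact ⟨h1, h2⟩
    have h5 : insert G R ∩ M.erase G ⊆ R := by
      intro x hx
      simp only [Finset.mem_inter, Finset.mem_insert, Finset.mem_erase] at hx
      tauto
    exact sp_mono h5 h4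

lemma exists_max {α : Type*} (P : α → Prop) (m : α → ℕ) (B : ℕ) (hB : ∀ a, P a → m a ≤ B)
    (hne : ∃ a, P a) : ∃ a, P a ∧ ∀ b, P b → m b ≤ m a := by
  by_contra hcon
  push Not at hcon
  have key : ∀ n : ℕ, ∃ a, P a ∧ n ≤ m a := by
    intro n
    induction n with
    | zero => obtain ⟨a, ha⟩ := hne; exact ⟨a, ha, Nat.zero_le _⟩
    | succ n ih =>
      obtain ⟨a, ha, hn⟩ := ih
      obtain ⟨b, hb, hlt⟩ := hcon a ha
      exact ⟨b, hb, by omega⟩
  obtain ⟨a, ha, hn⟩ := key (B + 1)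
  have := hB a ha
  omega

/-- A set of planes all of whose direct finite subsets have size at most `ν`. -/
structure Cfg (𝓛 : Set (Submodule F V)) (ν : ℕ) : Prop where
  two : ∀ L ∈ 𝓛, finrank F L = 2
  le : ∀ M : Finset (Submodule F V), (∀ L ∈ M, L ∈ 𝓛) → Mat M → M.card ≤ ν

/-- A direct finite subset of size `ν`. -/
structure Base (𝓛 : Set (Submodule F V)) (ν : ℕ) (M : Finset (Submodule F V)) : Prop where
  sub : ∀ L ∈ M, L ∈ 𝓛
  mat : Mat M
  card : M.card = ν

variable {𝓛 : Set (Submodule F V)} {ν : ℕ}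

lemma Base.meet {M : Finset (Submodule F V)} (hC : Cfg 𝓛 ν) (hM : Base 𝓛 ν M)
    {L : Submodule F V} (hL : L ∈ 𝓛) : L ⊓ sp M ≠ ⊥ := by
  intro h
  obtain ⟨h1, h2⟩ := mat_insert hM.mat (hC.two L hL) h
  have h3 := hC.le (insert L M) (by
    intro L' hL'
    rcases Finset.mem_insert.1 hL' with rfl | h'
    · exact hL
    · exact hM.sub L' h') h2
  rw [Finset.card_insert_of_notMem h1, hM.card] at h3
  omega

lemma Base.meet_pos {M : Finset (Submodule F V)} (hC : Cfg 𝓛 ν) (hM : Base 𝓛 ν M)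
    {L : Submodule F V} (hL : L ∈ 𝓛) : 1 ≤ finrank F ↥(L ⊓ sp M) := by
  rw [Nat.one_le_iff_ne_zero]
  intro h
  exact hM.meet hC hL (Submodule.finrank_eq_zero.1 h)

omit [FiniteDimensional F V] in
lemma Base.finrank {M : Finset (Submodule F V)} (hM : Base 𝓛 ν M) :
    finrank F (sp M) = 2 * ν := by rw [hM.mat.2, hM.card]

lemma Base.fin_sup_le {M : Finset (Submodule F V)} (hC : Cfg 𝓛 ν) (hM : Base 𝓛 ν M)
    {L : Submodule F V} (hL : L ∈ 𝓛) : Module.finrank F ↥(sp M ⊔ L) ≤ 2 * ν + 1 := by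
  have h1 := Submodule.finrank_sup_add_finrank_inf_eq L (sp M)
  have h2 := hM.meet_pos hC hL
  have h3 := hC.two L hL
  rw [hM.finrank, h3] at h1
  rw [sup_comm]
  omega

lemma lt_finrank_of_not_le {A B : Submodule F V} (h : ¬ B ≤ A) :
    finrank F A < finrank F ↥(A ⊔ B) := by
  apply Submodule.finrank_lt_finrank_of_lt
  refine lt_of_le_of_ne le_sup_left ?_
  intro hh
  apply h
  rw [hh]
  exact le_sup_right

lemma Base.sup_eq {M : Finset (Submodule F V)} (hC : Cfg 𝓛 ν) (hM : Base 𝓛 ν M)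
    {L : Submodule F V} (hL : L ∈ 𝓛) (h : ¬ L ≤ sp M) :
    Module.finrank F ↥(sp M ⊔ L) = 2 * ν + 1 := by
  have h1 := hM.fin_sup_le hC hL
  have h2 := lt_finrank_of_not_le h
  rw [hM.finrank] at h2
  omega

lemma Base.inf_eq {M : Finset (Submodule F V)} (hC : Cfg 𝓛 ν) (hM : Base 𝓛 ν M)
    {L : Submodule F V} (hL : L ∈ 𝓛) (h : ¬ L ≤ sp M) :
    Module.finrank F ↥(L ⊓ sp M) = 1 := by
  have h1 := Submodule.finrank_sup_add_finrank_inf_eq L (sp M)
  have h2 := hM.sup_eq hC hL h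
  rw [sup_comm] at h2
  rw [h2, hM.finrank, hC.two L hL] at h1
  omega

lemma Base.exists_gen {M : Finset (Submodule F V)} (hC : Cfg 𝓛 ν) (hM : Base 𝓛 ν M)
    {L : Submodule F V} (hL : L ∈ 𝓛) (h : ¬ L ≤ sp M) :
    ∃ p : V, p ≠ 0 ∧ p ∈ L ∧ p ∈ sp M ∧ ∀ y ∈ L, y ∈ sp M → ∃ c : F, c • p = y := by
  have h1 := hM.inf_eq hC hL h
  obtain ⟨p, hp, hgen⟩ := finrank_eq_one_iff'.1 h1
  refine ⟨p, fun h0 => hp (Subtype.ext h0), p.2.1, p.2.2, ?_⟩
  intro y hy hy'
  obtain ⟨c, hc⟩ := hgen ⟨y, hy, hy'⟩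
  exact ⟨c, by simpa using congrArg Subtype.val hc⟩

lemma Base.exch {M : Finset (Submodule F V)} (hC : Cfg 𝓛 ν) (hM : Base 𝓛 ν M)
    {L : Submodule F V} (hL : L ∈ 𝓛) (h : ¬ L ≤ sp M) {R : Finset (Submodule F V)}
    (hR : R ⊆ M) (hLR : L ⊓ sp R = ⊥) :
    ∃ G ∈ M, G ∉ R ∧ L ⊓ sp (M.erase G) = ⊥ := by
  obtain ⟨p, hp0, hpL, hpM, hgen⟩ := hM.exists_gen hC hL h
  by_contra hcon
  push Not at hcon
  have h1 : ∀ G ∈ M, G ∉ R → p ∈ sp (M.erase G) := by
    intro G hG hGR
    have h2 := hcon G hG hGR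
    obtain ⟨y, hy, hy0⟩ := Submodule.exists_mem_ne_zero_of_ne_bot h2
    obtain ⟨c, hc⟩ := hgen y hy.1 (sp_mono (Finset.erase_subset G M) hy.2)
    have hc0 : c ≠ 0 := by
      rintro rfl
      rw [zero_smul] at hc
      exact hy0 hc.symm
    have : p = c⁻¹ • y := by rw [← hc, smul_smul, inv_mul_cancel₀ hc0, one_smul]
    rw [this]
    exact Submodule.smul_mem _ _ hy.2
  have h3 := hM.mat.mem_of_forall hpM _ R hR rfl h1
  have h4 : p ∈ L ⊓ sp R := ⟨hpL, h3⟩
  rw [hLR, Submodule.mem_bot] at h4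
  exact hp0 h4

lemma Base.swap {M : Finset (Submodule F V)} (hC : Cfg 𝓛 ν) (hM : Base 𝓛 ν M)
    {L : Submodule F V} (hL : L ∈ 𝓛) {G : Submodule F V} (hG : G ∈ M)
    (h : L ⊓ sp (M.erase G) = ⊥) : Base 𝓛 ν (insert L (M.erase G)) := by
  obtain ⟨h1, h2⟩ := mat_insert (hM.mat.subset (Finset.erase_subset G M)) (hC.two L hL) h
  refine ⟨?_, h2, ?_⟩
  · intro L' hL'
    rcases Finset.mem_insert.1 hL' with rfl | h'
    · exact hL
    · exact hM.sub L' (Finset.mem_of_mem_erase h')
  · rw [Finset.card_insert_of_notMem h1, Finset.card_erase_of_mem hG, hM.card]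
    have : 0 < M.card := Finset.card_pos.2 ⟨G, hG⟩
    rw [hM.card] at this
    omega

omit [FiniteDimensional F V] in
lemma sum_mem_of_forall {M R : Finset (Submodule F V)} {f : Submodule F V → V}
    (h : ∀ G ∈ M, f G ∈ sp R) : ∑ G ∈ M, f G ∈ sp R := Submodule.sum_mem _ h

/-- The vector common to the sums of all dependent subsets of `M ∪ {E, K}`. -/
lemma kernel {M R : Finset (Submodule F V)} (hM : Mat M) {E K : Submodule F V}
    (hEM : E ∉ M) (hKM : K ∉ M) (hEK : E ≠ K) {p q : V} (hp0 : p ≠ 0) (hpE : p ∈ E)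
    (hsep : ∀ a ∈ E, ∀ b ∈ K, a + b ∈ sp M → (∃ c : F, c • p = a) ∧ ∃ d : F, d • q = b)
    {f g : Submodule F V → V} (hf : ∀ G ∈ M, f G ∈ G) (hg : ∀ G ∈ M, g G ∈ G)
    (hfs : ∑ G ∈ M, f G = p) (hgs : ∑ G ∈ M, g G = q)
    (hR : R ⊆ insert K (insert E M)) {h : Submodule F V → V} (hh : ∀ L ∈ R, h L ∈ L)
    (hsum : ∑ L ∈ R, h L = 0) (hne : ∃ L ∈ R, h L ≠ 0) :
    ∑ G ∈ M.filter (fun G => f G = g G), f G ∈ sp R := by
  set h' : Submodule F V → V := fun L => if L ∈ R then h L else 0 with hh'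
  have hmem : ∀ L, h' L ∈ L := by
    intro L
    by_cases hL : L ∈ R
    · simp only [hh', hL, if_true]; exact hh L hL
    · simp only [hh', hL, if_false]; exact Submodule.zero_mem _
  have hs : ∑ L ∈ insert K (insert E M), h' L = 0 := by
    rw [← hsum]
    symm
    rw [← Finset.sum_subset hR]
    · apply Finset.sum_congr rfl
      intro L hL
      simp [hh', hL]
    · intro L _ hL
      simp [hh', hL]
  have hKins : K ∉ insert E M := by
    simp only [Finset.mem_insert, not_or]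
    exact ⟨fun h => hEK h.symm, hKM⟩
  rw [Finset.sum_insert hKins, Finset.sum_insert hEM] at hs
  have hsM : h' E + h' K ∈ sp M := by
    have : h' E + h' K = -∑ G ∈ M, h' G := by
      rw [eq_neg_iff_add_eq_zero, ← hs]; abel
    rw [this]
    exact Submodule.neg_mem _ (sum_mem_sp (fun G _ => hmem G))
  obtain ⟨⟨c, hc⟩, ⟨d, hd⟩⟩ := hsep (h' E) (hmem E) (h' K) (hmem K) hsM
  have hz : ∀ G ∈ M, c • f G + d • g G + h' G = 0 := by
    apply hM.zero
    · intro G hG
      exact Submodule.add_mem _ (Submodule.add_mem _ (Submodule.smul_mem _ _ (hf G hG))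
        (Submodule.smul_mem _ _ (hg G hG))) (hmem G)
    · rw [Finset.sum_add_distrib, Finset.sum_add_distrib, ← Finset.smul_sum, ← Finset.smul_sum,
        hfs, hgs, hc, hd, ← hs]
      abel
  by_cases hcd : c + d = 0
  · have hd' : d = -c := by rw [eq_neg_iff_add_eq_zero, add_comm]; exact hcd
    have hc0 : c ≠ 0 := by
      rintro rfl
      have hd0 : d = 0 := by rw [hd']; simp
      obtain ⟨L, hL, hLne⟩ := hne
      apply hLne
      have hLval : h' L = h L := by simp [hh', hL]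
      rw [← hLval]
      have hLins := hR hL
      rw [Finset.mem_insert, Finset.mem_insert] at hLins
      rcases hLins with rfl | rfl | hLM
      · rw [← hd, hd0, zero_smul]
      · rw [← hc, zero_smul]
      · have := hz L hLM
        rw [hd0] at this
        simpa using this
    have hER : E ∈ R := by
      by_contra hER
      have : h' E = 0 := by simp [hh', hER]
      rw [this] at hc
      rcases smul_eq_zero.1 hc with h1 | h1
      · exact hc0 h1
      · exact hp0 h1
    have hout : ∀ G ∈ M, G ∉ R → f G = g G := by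
      intro G hG hGR
      have h1 := hz G hG
      have h2 : h' G = 0 := by simp [hh', hGR]
      rw [h2, hd', add_zero, neg_smul, ← sub_eq_add_neg, ← smul_sub] at h1
      rcases smul_eq_zero.1 h1 with h3 | h3
      · exact absurd h3 hc0
      · exact sub_eq_zero.1 h3
    have hsplit : ∑ G ∈ M.filter (fun G => f G = g G), f G
        = p - ∑ G ∈ M.filter (fun G => ¬ f G = g G), f G := by
      rw [← hfs, ← Finset.sum_filter_add_sum_filter_not M (fun G => f G = g G) f]
      abel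
    rw [hsplit]
    apply Submodule.sub_mem
    · exact le_sp hER hpE
    · apply sum_mem_of_forall
      intro G hG
      rw [Finset.mem_filter] at hG
      by_cases hGR : G ∈ R
      · exact le_sp hGR (hf G hG.1)
      · exact absurd (hout G hG.1 hGR) hG.2
  · apply sum_mem_of_forall
    intro G hG
    rw [Finset.mem_filter] at hG
    by_cases hGR : G ∈ R
    · exact le_sp hGR (hf G hG.1)
    · have h1 := hz G hG.1
      have h2 : h' G = 0 := by simp [hh', hGR]
      rw [h2, ← hG.2, add_zero, ← add_smul] at h1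
      rcases smul_eq_zero.1 h1 with h3 | h3
      · exact absurd h3 hcd
      · rw [h3]; exact Submodule.zero_mem _

/-- Two exchange sets over the same base, for planes independent over the base, are disjoint,
provided no nonzero vector lies in the sums of all bases. -/
lemma Base.star {M : Finset (Submodule F V)} (hC : Cfg 𝓛 ν)
    (hK : ∀ v : V, v ≠ 0 → ∃ N, Base 𝓛 ν N ∧ v ∉ sp N) (hM : Base 𝓛 ν M)
    {E K : Submodule F V} (hE : E ∈ 𝓛) (hKL : K ∈ 𝓛)
    (hr : Module.finrank F ↥(sp M ⊔ E ⊔ K) = 2 * ν + 2) {G : Submodule F V} (hG : G ∈ M)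
    (hEG : E ⊓ sp (M.erase G) = ⊥) (hKG : K ⊓ sp (M.erase G) = ⊥) : False := by
  have hEle : Module.finrank F ↥(sp M ⊔ E) ≤ 2 * ν + 1 := hM.fin_sup_le hC hE
  have hKle : Module.finrank F ↥(sp M ⊔ K) ≤ 2 * ν + 1 := hM.fin_sup_le hC hKL
  have hEn : ¬ E ≤ sp M := by
    intro h
    rw [sup_eq_left.2 h] at hr
    omega
  have hKn : ¬ K ≤ sp M := by
    intro h
    have : sp M ⊔ E ⊔ K = sp M ⊔ E := by
      rw [sup_eq_left]; exact h.trans le_sup_left
    rw [this] at hr
    omega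
  have hEeq := hM.sup_eq hC hE hEn
  have hKeq := hM.sup_eq hC hKL hKn
  have hEM : E ∉ M := fun h => hEn (le_sp h)
  have hKM : K ∉ M := fun h => hKn (le_sp h)
  have hEK : E ≠ K := by
    rintro rfl
    rw [sup_assoc, sup_idem] at hr
    omega
  have hinter : (sp M ⊔ E) ⊓ (sp M ⊔ K) = sp M := by
    symm
    apply Submodule.eq_of_le_of_finrank_eq
    · exact le_inf le_sup_left le_sup_left
    · have h1 := Submodule.finrank_sup_add_finrank_inf_eq (sp M ⊔ E) (sp M ⊔ K)
      have h2 : sp M ⊔ E ⊔ (sp M ⊔ K) = sp M ⊔ E ⊔ K := by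
        rw [← sup_assoc, sup_comm (sp M ⊔ E) (sp M), ← sup_assoc, sup_idem]
      rw [h2, hr, hEeq, hKeq] at h1
      rw [hM.finrank]
      omega
  obtain ⟨p, hp0, hpE, hpM, hpgen⟩ := hM.exists_gen hC hE hEn
  obtain ⟨q, hq0, hqK, hqM, hqgen⟩ := hM.exists_gen hC hKL hKn
  obtain ⟨f, hf, hfs⟩ := exists_rep hpM
  obtain ⟨g, hg, hgs⟩ := exists_rep hqM
  -- components at `G` are nonzero
  have hfG : f G ≠ 0 := by
    intro h0
    have : p ∈ sp (M.erase G) := by
      rw [← hfs, ← Finset.add_sum_erase _ _ hG, h0, zero_add]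
      exact sum_mem_sp (fun L hL => hf L (Finset.mem_of_mem_erase hL))
    have h1 : p ∈ E ⊓ sp (M.erase G) := ⟨hpE, this⟩
    rw [hEG, Submodule.mem_bot] at h1
    exact hp0 h1
  have hgG : g G ≠ 0 := by
    intro h0
    have : q ∈ sp (M.erase G) := by
      rw [← hgs, ← Finset.add_sum_erase _ _ hG, h0, zero_add]
      exact sum_mem_sp (fun L hL => hg L (Finset.mem_of_mem_erase hL))
    have h1 : q ∈ K ⊓ sp (M.erase G) := ⟨hqK, this⟩
    rw [hKG, Submodule.mem_bot] at h1
    exact hq0 h1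
  -- components at `G` are parallel
  have hpar : ∃ c : F, c • f G = g G := by
    set W := sp (insert K (insert E (M.erase G))) with hW
    have hWeq : W = sp (M.erase G) ⊔ E ⊔ K := by
      rw [hW, sp_insert, sp_insert, sup_comm, sup_comm E]
    have hEW : E ≤ W := le_sp (Finset.mem_insert_of_mem (Finset.mem_insert_self _ _))
    have hKW : K ≤ W := le_sp (Finset.mem_insert_self _ _)
    have hMW : sp (M.erase G) ≤ W := by
      rw [hWeq, sup_assoc]; exact le_sup_left
    have hfW : f G ∈ W := by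
      have : f G = p - ∑ L ∈ M.erase G, f L := by
        rw [← hfs, ← Finset.add_sum_erase _ _ hG]; abel
      rw [this]
      exact Submodule.sub_mem _ (hEW hpE)
        (hMW (sum_mem_sp (fun L hL => hf L (Finset.mem_of_mem_erase hL))))
    have hgW : g G ∈ W := by
      have : g G = q - ∑ L ∈ M.erase G, g L := by
        rw [← hgs, ← Finset.add_sum_erase _ _ hG]; abel
      rw [this]
      exact Submodule.sub_mem _ (hKW hqK)
        (hMW (sum_mem_sp (fun L hL => hg L (Finset.mem_of_mem_erase hL))))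
    have hGnot : ¬ G ≤ W := by
      intro hGW
      have hMW' : sp M ≤ W := by
        have : M = insert G (M.erase G) := (Finset.insert_erase hG).symm
        rw [this, sp_insert]
        exact sup_le hGW hMW
      have hWall : sp M ⊔ E ⊔ K ≤ W := sup_le (sup_le hMW' hEW) hKW
      have hfin := Submodule.finrank_mono hWall
      rw [hr, hW] at hfin
      have htwo : ∀ L ∈ insert K (insert E (M.erase G)), Module.finrank F L = 2 := by
        intro L hL
        rw [Finset.mem_insert, Finset.mem_insert] at hL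
        rcases hL with rfl | rfl | hL
        · exact hC.two _ hKL
        · exact hC.two _ hE
        · exact hM.mat.1 L (Finset.mem_of_mem_erase hL)
      have hub := finrank_sp_le htwo
      have hcard : (insert K (insert E (M.erase G))).card ≤ ν + 1 := by
        have h1 := Finset.card_insert_le K (insert E (M.erase G))
        have h2 := Finset.card_insert_le E (M.erase G)
        have h3 := Finset.card_erase_of_mem hG
        have h4 : 0 < M.card := Finset.card_pos.2 ⟨G, hG⟩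
        rw [hM.card] at h3 h4
        omega
      have hmat : Mat (insert K (insert E (M.erase G))) := ⟨htwo, by omega⟩
      have := hC.le _ (by
        intro L hL
        rw [Finset.mem_insert, Finset.mem_insert] at hL
        rcases hL with rfl | rfl | hL
        · exact hKL
        · exact hE
        · exact hM.sub L (Finset.mem_of_mem_erase hL)) hmat
      omega
    have hlt : Module.finrank F ↥(G ⊓ W) < 2 := by
      rw [← hM.mat.1 G hG]
      apply Submodule.finrank_lt_finrank_of_lt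
      refine lt_of_le_of_ne inf_le_left ?_
      intro h
      exact hGnot (inf_eq_left.1 h)
    have hpos : Module.finrank F ↥(G ⊓ W) ≠ 0 := by
      intro h0
      have h1 : f G ∈ G ⊓ W := ⟨hf G hG, hfW⟩
      rw [Submodule.finrank_eq_zero.1 h0, Submodule.mem_bot] at h1
      exact hfG h1
    have hone : Module.finrank F ↥(G ⊓ W) = 1 := by omega
    have hgen := (finrank_eq_one_iff_of_nonzero' (⟨f G, hf G hG, hfW⟩ : ↥(G ⊓ W))
      (by intro h; exact hfG (congrArg Subtype.val h))).1 hone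
    obtain ⟨c, hc⟩ := hgen ⟨g G, hg G hG, hgW⟩
    exact ⟨c, by simpa using congrArg Subtype.val hc⟩
  obtain ⟨c, hc⟩ := hpar
  have hc0 : c ≠ 0 := by
    rintro rfl
    rw [zero_smul] at hc
    exact hgG hc.symm
  -- rescale
  set q' : V := c⁻¹ • q with hq'
  set g' : Submodule F V → V := fun L => c⁻¹ • g L with hg'
  have hg'mem : ∀ L ∈ M, g' L ∈ L := fun L hL => Submodule.smul_mem _ _ (hg L hL)
  have hg's : ∑ L ∈ M, g' L = q' := by
    rw [hq', ← hgs, Finset.smul_sum]
  have hfg : f G = g' G := by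
    rw [hg']
    simp only
    rw [← hc, smul_smul, inv_mul_cancel₀ hc0, one_smul]
  have hsep : ∀ a ∈ E, ∀ b ∈ K, a + b ∈ sp M →
      (∃ c : F, c • p = a) ∧ ∃ d : F, d • q' = b := by
    intro a ha b hb hab
    have haM : a ∈ sp M := by
      rw [← hinter]
      refine ⟨(le_sup_right : E ≤ sp M ⊔ E) ha, ?_⟩
      have : a = (a + b) - b := by abel
      rw [this]
      exact Submodule.sub_mem _ ((le_sup_left : sp M ≤ sp M ⊔ K) hab)
        ((le_sup_right : K ≤ sp M ⊔ K) hb)
    have hbM : b ∈ sp M := by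
      have : b = (a + b) - a := by abel
      rw [this]
      exact Submodule.sub_mem _ hab haM
    refine ⟨hpgen a ha haM, ?_⟩
    obtain ⟨d, hd⟩ := hqgen b hb hbM
    refine ⟨d * c, ?_⟩
    rw [hq', smul_smul, mul_assoc, mul_inv_cancel₀ hc0, mul_one, hd]
  set x : V := ∑ L ∈ M.filter (fun L => f L = g' L), f L with hx
  have hx0 : x ≠ 0 := by
    intro h0
    have hsub : M.filter (fun L => f L = g' L) ⊆ M := Finset.filter_subset _ _
    have := (hM.mat.subset hsub).zero (f := f) (fun L hL => hf L (hsub hL)) h0 G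
      (Finset.mem_filter.2 ⟨hG, hfg⟩)
    exact hfG this
  have hker : ∀ R ⊆ insert K (insert E M), ∀ h : Submodule F V → V, (∀ L ∈ R, h L ∈ L) →
      ∑ L ∈ R, h L = 0 → (∃ L ∈ R, h L ≠ 0) → x ∈ sp R := by
    intro R hR h hh hs hne
    exact kernel hM.mat hEM hKM hEK hp0 hpE hsep hf hg'mem hfs hg's hR hh hs hne
  -- choose a base avoiding `x` closest to `T`
  set T := insert K (insert E M) with hT
  have hTfin : Module.finrank F (sp T) = 2 * ν + 2 := by
    have h1 : K ⊔ (E ⊔ sp M) = sp M ⊔ E ⊔ K := by rw [sup_comm, sup_comm E]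
    rw [hT, sp_insert, sp_insert, h1, hr]
  obtain ⟨N, ⟨hN, hxN⟩, hmax⟩ := exists_max
    (fun N : Finset (Submodule F V) => Base 𝓛 ν N ∧ x ∉ sp N)
    (fun N => (N ∩ T).card) T.card
    (fun N _ => Finset.card_le_card Finset.inter_subset_right) (hK x hx0)
  have hNx : Module.finrank F ↥(sp N ⊔ Submodule.span F {x}) ≤ 2 * ν + 1 := by
    have h1 : Module.finrank F ↥(sp N ⊔ Submodule.span F {x}) ≤
      Module.finrank F (sp N) + Module.finrank F (Submodule.span F {x}) :=
      Submodule.finrank_add_le_finrank_add_finrank _ _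
    rw [hN.finrank, finrank_span_singleton hx0] at h1
    exact h1
  obtain ⟨e, heT, hex⟩ : ∃ e ∈ T, ¬ e ≤ sp N ⊔ Submodule.span F {x} := by
    by_contra hcon
    push Not at hcon
    have : sp T ≤ sp N ⊔ Submodule.span F {x} := Finset.sup_le hcon
    have := Submodule.finrank_mono this
    omega
  have heN : ¬ e ≤ sp N := fun h => hex (h.trans le_sup_left)
  have he𝓛 : e ∈ 𝓛 := by
    rw [hT, Finset.mem_insert, Finset.mem_insert] at heT
    rcases heT with rfl | rfl | h
    · exact hKL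
    · exact hE
    · exact hM.sub e h
  have hxe : x ∉ sp N ⊔ e := by
    intro hxe
    have h1 : sp N ⊔ Submodule.span F {x} ≤ sp N ⊔ e := by
      refine sup_le le_sup_left ?_
      rw [Submodule.span_singleton_le_iff_mem]
      exact hxe
    have h2 : sp N ⊔ Submodule.span F {x} = sp N ⊔ e := by
      apply Submodule.eq_of_le_of_finrank_le h1
      rw [hN.sup_eq hC he𝓛 heN]
      have h3 : sp N < sp N ⊔ Submodule.span F {x} := by
        refine lt_of_le_of_ne le_sup_left ?_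
        intro h
        apply hxN
        rw [h]
        exact (le_sup_right : Submodule.span F {x} ≤ _) (Submodule.mem_span_singleton_self x)
      have h4 := Submodule.finrank_lt_finrank_of_lt h3
      rw [hN.finrank] at h4
      omega
    apply hex
    rw [h2]
    exact le_sup_right
  set S := N.filter (fun H => e ⊓ sp (N.erase H) = ⊥) with hS
  have hST : S ⊆ T := by
    intro H hH
    by_contra hHT
    rw [hS, Finset.mem_filter] at hH
    have hN' := hN.swap hC he𝓛 hH.1 hH.2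
    have hxN' : x ∉ sp (insert e (N.erase H)) := by
      intro h
      apply hxe
      rw [sp_insert] at h
      exact (sup_le le_sup_right ((sp_mono (Finset.erase_subset H N)).trans le_sup_left) :
        e ⊔ sp (N.erase H) ≤ sp N ⊔ e) h
    have h1 := hmax _ ⟨hN', hxN'⟩
    have h2 : insert e (N ∩ T) ⊆ insert e (N.erase H) ∩ T := by
      intro L hL
      rw [Finset.mem_insert] at hL
      rcases hL with rfl | hL
      · exact Finset.mem_inter.2 ⟨Finset.mem_insert_self _ _, heT⟩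
      · rw [Finset.mem_inter] at hL
        refine Finset.mem_inter.2 ⟨Finset.mem_insert_of_mem (Finset.mem_erase.2 ⟨?_, hL.1⟩), hL.2⟩
        rintro rfl
        exact hHT hL.2
    have h3 := Finset.card_le_card h2
    have h4 : e ∉ N ∩ T := fun h => heN (le_sp (Finset.mem_inter.1 h).1)
    rw [Finset.card_insert_of_notMem h4] at h3
    omega
  have hmeet : e ⊓ sp S ≠ ⊥ := by
    intro h
    obtain ⟨H, hHN, hHS, hH⟩ := hN.exch hC he𝓛 heN (Finset.filter_subset _ _) h
    exact hHS (Finset.mem_filter.2 ⟨hHN, hH⟩)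
  obtain ⟨u, hu, hu0⟩ := Submodule.exists_mem_ne_zero_of_ne_bot hmeet
  obtain ⟨k, hk, hks⟩ := exists_rep hu.2
  have heS : e ∉ S := fun h => heN (le_sp (Finset.mem_filter.1 h).1)
  have hfinal : x ∈ sp (insert e S) := by
    apply hker (insert e S) (Finset.insert_subset heT hST)
      (fun L => if L = e then -u else k L)
    · intro L hL
      by_cases h : L = e
      · subst h
        simp only [if_true]
        exact Submodule.neg_mem _ hu.1
      · simp only [h, if_false]
        exact hk L ((Finset.mem_insert.1 hL).resolve_left h)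
    · rw [Finset.sum_insert heS, if_pos rfl, neg_add_eq_zero, ← hks]
      apply Finset.sum_congr rfl
      intro L hL
      have : L ≠ e := fun h => heS (h ▸ hL)
      simp [this]
    · exact ⟨e, Finset.mem_insert_self _ _, by simpa using hu0⟩
  apply hxe
  rw [sp_insert] at hfinal
  exact (sup_le le_sup_right ((sp_mono (Finset.filter_subset _ _)).trans le_sup_left) :
    e ⊔ sp S ≤ sp N ⊔ e) hfinal

/-- Two planes are related if no base is independent of both. -/
def Rel (𝓛 : Set (Submodule F V)) (ν : ℕ) (E K : Submodule F V) : Prop :=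
  ∀ M, Base 𝓛 ν M → Module.finrank F ↥(sp M ⊔ E ⊔ K) ≤ 2 * ν + 1

lemma Base.fin_sup2_le {M : Finset (Submodule F V)} (hC : Cfg 𝓛 ν) (hM : Base 𝓛 ν M)
    {E K : Submodule F V} (hE : E ∈ 𝓛) (hK : K ∈ 𝓛) :
    Module.finrank F ↥(sp M ⊔ E ⊔ K) ≤ 2 * ν + 2 := by
  have h1 := Submodule.finrank_sup_add_finrank_inf_eq (sp M ⊔ E) K
  have h2 := hM.fin_sup_le hC hE
  have h3 := hM.meet_pos hC hK
  have h4 : Module.finrank F ↥(K ⊓ sp M) ≤ Module.finrank F ↥((sp M ⊔ E) ⊓ K) := by
    apply Submodule.finrank_mono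
    rw [inf_comm]
    exact inf_le_inf_right K le_sup_left
  rw [hC.two K hK] at h1
  omega

lemma Base.not_le_of_two {M : Finset (Submodule F V)} (hC : Cfg 𝓛 ν) (hM : Base 𝓛 ν M)
    {E K : Submodule F V} (hE : E ∈ 𝓛) (hKL : K ∈ 𝓛)
    (hr : 2 * ν + 2 ≤ Module.finrank F ↥(sp M ⊔ E ⊔ K)) :
    ¬ E ≤ sp M ∧ ¬ K ≤ sp M ∧ (sp M ⊔ E) ⊓ (sp M ⊔ K) = sp M := by
  have hEle : Module.finrank F ↥(sp M ⊔ E) ≤ 2 * ν + 1 := hM.fin_sup_le hC hE
  have hKle : Module.finrank F ↥(sp M ⊔ K) ≤ 2 * ν + 1 := hM.fin_sup_le hC hKL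
  have hEn : ¬ E ≤ sp M := by
    intro h
    rw [sup_eq_left.2 h] at hr
    omega
  have hKn : ¬ K ≤ sp M := by
    intro h
    have : sp M ⊔ E ⊔ K = sp M ⊔ E := by
      rw [sup_eq_left]; exact h.trans le_sup_left
    rw [this] at hr
    omega
  refine ⟨hEn, hKn, ?_⟩
  have hEeq := hM.sup_eq hC hE hEn
  have hKeq := hM.sup_eq hC hKL hKn
  symm
  apply Submodule.eq_of_le_of_finrank_le
  · exact le_inf le_sup_left le_sup_left
  · have h1 := Submodule.finrank_sup_add_finrank_inf_eq (sp M ⊔ E) (sp M ⊔ K)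
    have h2 : sp M ⊔ E ⊔ (sp M ⊔ K) = sp M ⊔ E ⊔ K := by
      rw [← sup_assoc, sup_comm (sp M ⊔ E) (sp M), ← sup_assoc, sup_idem]
    rw [h2, hEeq, hKeq] at h1
    rw [hM.finrank]
    omega

/-- Exchange a plane of a direct set `M` into the base `N`, increasing the intersection. -/
lemma Base.toward {N M : Finset (Submodule F V)} (hC : Cfg 𝓛 ν) (hN : Base 𝓛 ν N)
    (hM : Base 𝓛 ν M) {m : Submodule F V} (hm : m ∈ M) (hmN : ¬ m ≤ sp N) :
    ∃ k ∈ N, k ∉ M ∧ m ⊓ sp (N.erase k) = ⊥ ∧ Base 𝓛 ν (insert m (N.erase k)) ∧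
      (N ∩ M).card < (insert m (N.erase k) ∩ M).card := by
  have hmN' : m ∉ N := fun h => hmN (le_sp h)
  have hdis : m ⊓ sp (N ∩ M) = ⊥ :=
    hM.mat.disj hm Finset.inter_subset_right (fun h => hmN' (Finset.mem_inter.1 h).1)
  obtain ⟨k, hkN, hk, hk2⟩ := hN.exch hC (hM.sub m hm) hmN Finset.inter_subset_left hdis
  have hkM : k ∉ M := fun h => hk (Finset.mem_inter.2 ⟨hkN, h⟩)
  refine ⟨k, hkN, hkM, hk2, hN.swap hC (hM.sub m hm) hkN hk2, ?_⟩
  have h2 : insert m (N ∩ M) ⊆ insert m (N.erase k) ∩ M := by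
    intro L hL
    rw [Finset.mem_insert] at hL
    rcases hL with rfl | hL
    · exact Finset.mem_inter.2 ⟨Finset.mem_insert_self _ _, hm⟩
    · rw [Finset.mem_inter] at hL
      refine Finset.mem_inter.2 ⟨Finset.mem_insert_of_mem (Finset.mem_erase.2 ⟨?_, hL.1⟩), hL.2⟩
      rintro rfl
      exact hkM hL.2
  have h3 := Finset.card_le_card h2
  have h4 : m ∉ N ∩ M := fun h => hmN' (Finset.mem_inter.1 h).1
  rw [Finset.card_insert_of_notMem h4] at h3
  omega

/-- Exchangeable planes are related. -/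
lemma Base.rel_of_exch {N : Finset (Submodule F V)} (hC : Cfg 𝓛 ν)
    (hK : ∀ v : V, v ≠ 0 → ∃ N, Base 𝓛 ν N ∧ v ∉ sp N) (hN : Base 𝓛 ν N)
    {E : Submodule F V} (hE : E ∈ 𝓛) (hEN : ¬ E ≤ sp N) {k : Submodule F V} (hk : k ∈ N)
    (hex : E ⊓ sp (N.erase k) = ⊥) : Rel 𝓛 ν E k := by
  intro M hM
  by_contra hcon
  push Not at hcon
  obtain ⟨N, ⟨hN, hEN, hk, hex⟩, hmax⟩ := exists_max
    (fun N : Finset (Submodule F V) => Base 𝓛 ν N ∧ ¬ E ≤ sp N ∧ k ∈ N ∧
      E ⊓ sp (N.erase k) = ⊥)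
    (fun N => (N ∩ M).card) M.card
    (fun N _ => Finset.card_le_card Finset.inter_subset_right) ⟨N, hN, hEN, hk, hex⟩
  have hEeq := hN.sup_eq hC hE hEN
  obtain ⟨m, hm, hmn⟩ : ∃ m ∈ M, ¬ m ≤ sp N ⊔ E := by
    by_contra hall
    push Not at hall
    have h1 : sp M ≤ sp N ⊔ E := Finset.sup_le hall
    have h2 : sp M ⊔ E ⊔ k ≤ sp N ⊔ E :=
      sup_le (sup_le h1 le_sup_right) ((le_sp hk).trans le_sup_left)
    have := Submodule.finrank_mono h2
    omega
  have hmN : ¬ m ≤ sp N := fun h => hmn (h.trans le_sup_left)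
  have hmN' : m ∉ N := fun h => hmN (le_sp h)
  have hm𝓛 := hM.sub m hm
  have hrank : Module.finrank F ↥(sp N ⊔ E ⊔ m) = 2 * ν + 2 := by
    have h1 := hN.fin_sup2_le hC hE hm𝓛
    have h2 := lt_finrank_of_not_le hmn
    omega
  obtain ⟨k', hk'N, hk'M, hk'ex, hN', hcard⟩ := hN.toward hC hM hm hmN
  have hEk' : E ⊓ sp (N.erase k') ≠ ⊥ := fun h =>
    hN.star hC hK hE hm𝓛 hrank hk'N h hk'ex
  have hkk' : k ≠ k' := by
    rintro rfl
    exact hEk' hex
  have hkN' : k ∈ insert m (N.erase k') :=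
    Finset.mem_insert_of_mem (Finset.mem_erase.2 ⟨hkk', hk⟩)
  have hEN' : ¬ E ≤ sp (insert m (N.erase k')) := by
    intro h
    have h1 : sp N ⊔ E ⊔ m ≤ sp (insert m (N.erase k')) ⊔ k' := by
      have h2 : sp N ≤ sp (insert m (N.erase k')) ⊔ k' := by
        have h3 : N = insert k' (N.erase k') := (Finset.insert_erase hk'N).symm
        have h4 : sp N = k' ⊔ sp (N.erase k') := by
          conv_lhs => rw [h3]
          rw [sp_insert]
        rw [h4, sp_insert]
        exact _root_.sup_le le_sup_right (le_sup_right.trans le_sup_left)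
      refine _root_.sup_le (_root_.sup_le h2 (h.trans le_sup_left)) ?_
      exact (le_sp (Finset.mem_insert_self _ _)).trans le_sup_left
    have h5 := Submodule.finrank_mono h1
    have h6 := hN'.fin_sup_le hC (hN.sub k' hk'N)
    omega
  have hexN' : E ⊓ sp ((insert m (N.erase k')).erase k) = ⊥ := by
    by_contra hne
    obtain ⟨y, hy, hy0⟩ := Submodule.exists_mem_ne_zero_of_ne_bot hne
    obtain ⟨z, hz, hz0⟩ := Submodule.exists_mem_ne_zero_of_ne_bot hEk'
    obtain ⟨p, hp0, hpE, hpN', hgen⟩ := hN'.exists_gen hC hE hEN'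
    obtain ⟨c, hc⟩ := hgen y hy.1 (sp_mono (Finset.erase_subset _ _) hy.2)
    obtain ⟨d, hd⟩ := hgen z hz.1 (sp_mono (Finset.subset_insert _ _) hz.2)
    have hd0 : d ≠ 0 := by
      rintro rfl
      rw [zero_smul] at hd
      exact hz0 hd.symm
    have hyz : y = (c * d⁻¹) • z := by
      rw [← hc, ← hd, smul_smul, mul_assoc, inv_mul_cancel₀ hd0, mul_one]
    have hy1 : y ∈ sp (N.erase k') := by
      rw [hyz]; exact Submodule.smul_mem _ _ hz.2
    have hint := hN'.mat.inter (S := N.erase k') (T := (insert m (N.erase k')).erase k)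
      (Finset.subset_insert _ _) (Finset.erase_subset _ _)
    have hy2 : y ∈ sp (N.erase k' ∩ (insert m (N.erase k')).erase k) := by
      rw [← hint]; exact ⟨hy1, hy.2⟩
    have hsub : N.erase k' ∩ (insert m (N.erase k')).erase k ⊆ N.erase k := by
      intro L hL
      simp only [Finset.mem_inter, Finset.mem_erase] at hL
      exact Finset.mem_erase.2 ⟨hL.2.1, hL.1.2⟩
    have hy3 : y ∈ E ⊓ sp (N.erase k) := ⟨hy.1, sp_mono hsub hy2⟩
    rw [hex, Submodule.mem_bot] at hy3
    exact hy0 hy3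
  have := hmax _ ⟨hN', hEN', hkN', hexN'⟩
  omega

omit [FiniteDimensional F V] in
lemma Rel.symm {E K : Submodule F V} (h : Rel 𝓛 ν E K) : Rel 𝓛 ν K E := by
  intro M hM
  rw [sup_right_comm]
  exact h M hM

lemma Rel.refl (hC : Cfg 𝓛 ν) {E : Submodule F V} (hE : E ∈ 𝓛) : Rel 𝓛 ν E E := by
  intro M hM
  rw [sup_assoc, sup_idem]
  exact hM.fin_sup_le hC hE

lemma Rel.trans (hC : Cfg 𝓛 ν) (hK : ∀ v : V, v ≠ 0 → ∃ N, Base 𝓛 ν N ∧ v ∉ sp N)
    {E G K : Submodule F V} (hE : E ∈ 𝓛) (hG : G ∈ 𝓛) (hK𝓛 : K ∈ 𝓛)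
    (h1 : Rel 𝓛 ν E G) (h2 : Rel 𝓛 ν G K) : Rel 𝓛 ν E K := by
  intro M hM
  by_contra hcon
  push Not at hcon
  have hr : 2 * ν + 2 ≤ Module.finrank F ↥(sp M ⊔ E ⊔ K) := by omega
  obtain ⟨hEM, hKM, hint⟩ := hM.not_le_of_two hC hE hK𝓛 hr
  have hGE : G ≤ sp M ⊔ E := by
    by_contra h
    have h3 := lt_finrank_of_not_le h
    have h4 := h1 M hM
    rw [hM.sup_eq hC hE hEM] at h3
    omega
  have hGK : G ≤ sp M ⊔ K := by
    by_contra h
    have h3 := lt_finrank_of_not_le h
    have h4 := h2.symm M hM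
    rw [hM.sup_eq hC hK𝓛 hKM] at h3
    omega
  have hGM : G ≤ sp M := by
    rw [← hint]; exact le_inf hGE hGK
  have hGne : G ≠ ⊥ := by
    intro h
    have := hC.two G hG
    rw [h, finrank_bot] at this
    omega
  obtain ⟨v, hvG, hv0⟩ := Submodule.exists_mem_ne_zero_of_ne_bot hGne
  have hex : ∃ N, Base 𝓛 ν N ∧ ¬ G ≤ sp N := by
    obtain ⟨N, hN, hvN⟩ := hK v hv0
    exact ⟨N, hN, fun h => hvN (h hvG)⟩
  obtain ⟨N, ⟨hN, hGN⟩, hmax⟩ := exists_max
    (fun N : Finset (Submodule F V) => Base 𝓛 ν N ∧ ¬ G ≤ sp N)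
    (fun N => (N ∩ M).card) M.card
    (fun N _ => Finset.card_le_card Finset.inter_subset_right) hex
  have hGeq := hN.sup_eq hC hG hGN
  have hEle : E ≤ sp N ⊔ G := by
    by_contra h
    have h3 := lt_finrank_of_not_le h
    have h4 := h1.symm N hN
    omega
  have hKle : K ≤ sp N ⊔ G := by
    by_contra h
    have h3 := lt_finrank_of_not_le h
    have h4 := h2 N hN
    omega
  obtain ⟨m, hm, hmn⟩ : ∃ m ∈ M, ¬ m ≤ sp N ⊔ G := by
    by_contra hall
    push Not at hall
    have h3 : sp M ≤ sp N ⊔ G := Finset.sup_le hall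
    have h4 : sp M ⊔ E ⊔ K ≤ sp N ⊔ G := _root_.sup_le (_root_.sup_le h3 hEle) hKle
    have := Submodule.finrank_mono h4
    omega
  have hmN : ¬ m ≤ sp N := fun h => hmn (h.trans le_sup_left)
  obtain ⟨k, hkN, hkM, hkex, hN', hcard⟩ := hN.toward hC hM hm hmN
  have hGN' : ¬ G ≤ sp (insert m (N.erase k)) := by
    intro h
    have h3 : sp (insert m (N.erase k)) ≤ sp N ⊔ m := by
      rw [sp_insert]
      exact _root_.sup_le le_sup_right ((sp_mono (Finset.erase_subset _ _)).trans le_sup_left)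
    have h4 : sp N ⊔ G ≤ sp N ⊔ m := _root_.sup_le le_sup_left (h.trans h3)
    have h5 : sp N ⊔ G = sp N ⊔ m := by
      apply Submodule.eq_of_le_of_finrank_le h4
      rw [hGeq]
      exact hN.fin_sup_le hC (hM.sub m hm)
    apply hmn
    rw [h5]
    exact le_sup_right
  have := hmax _ ⟨hN', hGN'⟩
  omega

omit [FiniteDimensional F V] in
lemma exists_pair {L : Submodule F V} (hL : finrank F L = 2) [FiniteDimensional F V] :
    ∃ x y : V, x ∈ L ∧ y ∈ L ∧ L = Submodule.span F {x} ⊔ Submodule.span F {y} := by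
  have hLne : L ≠ ⊥ := by
    rintro rfl
    rw [finrank_bot] at hL
    omega
  obtain ⟨x, hxL, hx0⟩ := Submodule.exists_mem_ne_zero_of_ne_bot hLne
  have h1 : finrank F (Submodule.span F {x}) = 1 := finrank_span_singleton hx0
  have h2 : Submodule.span F {x} < L := by
    refine lt_of_le_of_ne ((Submodule.span_singleton_le_iff_mem x L).2 hxL) ?_
    intro h
    rw [h] at h1
    omega
  obtain ⟨y, hyL, hyx⟩ := SetLike.exists_of_lt h2
  refine ⟨x, y, hxL, hyL, ?_⟩
  symm
  apply Submodule.eq_of_le_of_finrank_le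
  · exact _root_.sup_le h2.le ((Submodule.span_singleton_le_iff_mem y L).2 hyL)
  · have h3 := lt_finrank_of_not_le (A := Submodule.span F {x}) (B := Submodule.span F {y})
      (fun h => hyx (h (Submodule.mem_span_singleton_self y)))
    omega

/-- The span of two independent vectors is two-dimensional. -/
lemma finrank_pair {x y : V} (hx : x ≠ 0) (hy : y ∉ Submodule.span F {x}) :
    finrank F ↥(Submodule.span F {x} ⊔ Submodule.span F {y}) = 2 := by
  have h1 : finrank F (Submodule.span F {x}) = 1 := finrank_span_singleton hx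
  have hy0 : y ≠ 0 := by
    rintro rfl
    exact hy (Submodule.zero_mem _)
  have h2 : finrank F (Submodule.span F {y}) = 1 := finrank_span_singleton hy0
  have h3 := lt_finrank_of_not_le (A := Submodule.span F {x}) (B := Submodule.span F {y})
      (fun h => hy (h (Submodule.mem_span_singleton_self y)))
  have h4 : finrank F ↥(Submodule.span F {x} ⊔ Submodule.span F {y}) ≤
    finrank F (Submodule.span F {x}) + finrank F (Submodule.span F {y}) :=
    Submodule.finrank_add_le_finrank_add_finrank _ _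
  omega

/-- Maximality of a set of planes with respect to its bases. -/
def Maxi (𝓛 : Set (Submodule F V)) (ν : ℕ) : Prop :=
  ∀ L : Submodule F V, finrank F L = 2 → (∀ M, Base 𝓛 ν M → L ⊓ sp M ≠ ⊥) → L ∈ 𝓛

lemma mem_of_le_sup (hX : Maxi 𝓛 ν) {E K L : Submodule F V} (h : Rel 𝓛 ν E K)
    (hL : finrank F L = 2) (hLE : L ≤ E ⊔ K) : L ∈ 𝓛 ∧ Rel 𝓛 ν E L := by
  constructor
  · apply hX L hL
    intro M hM hbot
    have h1 := Submodule.finrank_sup_add_finrank_inf_eq L (sp M)
    rw [hbot, finrank_bot, hL, hM.finrank] at h1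
    have h2 : L ⊔ sp M ≤ sp M ⊔ E ⊔ K := by
      refine _root_.sup_le (hLE.trans ?_) (le_sup_left.trans le_sup_left)
      rw [sup_assoc]
      exact le_sup_right
    have h3 := Submodule.finrank_mono h2
    have h4 := h M hM
    omega
  · intro M hM
    have h2 : sp M ⊔ E ⊔ L ≤ sp M ⊔ E ⊔ K := by
      refine _root_.sup_le le_sup_left (hLE.trans ?_)
      rw [sup_assoc]
      exact le_sup_right
    exact (Submodule.finrank_mono h2).trans (h M hM)

/-- The sum of the class of `E`. -/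
noncomputable def cl (𝓛 : Set (Submodule F V)) (ν : ℕ) (E : Submodule F V) : Submodule F V :=
  sSup {K | K ∈ 𝓛 ∧ Rel 𝓛 ν E K}

omit [FiniteDimensional F V] in
lemma le_cl {E K : Submodule F V} (hK : K ∈ 𝓛) (h : Rel 𝓛 ν E K) : K ≤ cl 𝓛 ν E :=
  le_sSup ⟨hK, h⟩

lemma mem_cl (hC : Cfg 𝓛 ν) (hX : Maxi 𝓛 ν)
    (hK : ∀ v : V, v ≠ 0 → ∃ N, Base 𝓛 ν N ∧ v ∉ sp N)
    {E : Submodule F V} (hE : E ∈ 𝓛) {x : V} (hx : x ∈ cl 𝓛 ν E) :
    ∃ K ∈ 𝓛, Rel 𝓛 ν E K ∧ x ∈ K := by
  let Q : Submodule F V :=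
    { carrier := {x | ∃ K ∈ 𝓛, Rel 𝓛 ν E K ∧ x ∈ K}
      zero_mem' := ⟨E, hE, Rel.refl hC hE, Submodule.zero_mem _⟩
      smul_mem' := by
        rintro c x ⟨K, hK𝓛, hEK, hxK⟩
        exact ⟨K, hK𝓛, hEK, Submodule.smul_mem _ _ hxK⟩
      add_mem' := by
        rintro x y ⟨K₁, hK₁, hEK₁, hx⟩ ⟨K₂, hK₂, hEK₂, hy⟩
        by_cases h0 : x + y = 0
        · exact ⟨K₁, hK₁, hEK₁, by rw [h0]; exact Submodule.zero_mem _⟩
        · have hrel : Rel 𝓛 ν K₁ K₂ := Rel.trans hC hK hK₁ hE hK₂ hEK₁.symm hEK₂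
          have h1 : ¬ K₁ ≤ Submodule.span F {x + y} := by
            intro h
            have h2 := Submodule.finrank_mono h
            rw [hC.two K₁ hK₁, finrank_span_singleton h0] at h2
            omega
          obtain ⟨w, hwK, hw⟩ := SetLike.not_le_iff_exists.1 h1
          have h3 := finrank_pair h0 hw
          have h4 : Submodule.span F {x + y} ⊔ Submodule.span F {w} ≤ K₁ ⊔ K₂ := by
            refine _root_.sup_le ?_ ?_
            · rw [Submodule.span_singleton_le_iff_mem]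
              exact Submodule.add_mem_sup hx hy
            · rw [Submodule.span_singleton_le_iff_mem]
              exact (le_sup_left : K₁ ≤ K₁ ⊔ K₂) hwK
          obtain ⟨h5, h6⟩ := mem_of_le_sup hX hrel h3 h4
          refine ⟨_, h5, Rel.trans hC hK hE hK₁ h5 hEK₁ h6, ?_⟩
          exact (le_sup_left : Submodule.span F {x + y} ≤ _)
            (Submodule.mem_span_singleton_self _) }
  have hle : cl 𝓛 ν E ≤ Q := by
    apply sSup_le
    rintro K ⟨hK𝓛, hEK⟩ z hz
    exact ⟨K, hK𝓛, hEK, hz⟩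
  exact hle hx

lemma rel_of_le_cl (hC : Cfg 𝓛 ν) (hX : Maxi 𝓛 ν)
    (hK : ∀ v : V, v ≠ 0 → ∃ N, Base 𝓛 ν N ∧ v ∉ sp N)
    {E L : Submodule F V} (hE : E ∈ 𝓛) (hL : finrank F L = 2) (hLE : L ≤ cl 𝓛 ν E) :
    L ∈ 𝓛 ∧ Rel 𝓛 ν E L := by
  obtain ⟨x, y, hx, hy, hLxy⟩ := exists_pair hL
  obtain ⟨K₁, hK₁, hEK₁, hx₁⟩ := mem_cl hC hX hK hE (hLE hx)
  obtain ⟨K₂, hK₂, hEK₂, hy₂⟩ := mem_cl hC hX hK hE (hLE hy)
  have hrel : Rel 𝓛 ν K₁ K₂ := Rel.trans hC hK hK₁ hE hK₂ hEK₁.symm hEK₂
  have h4 : L ≤ K₁ ⊔ K₂ := by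
    rw [hLxy]
    refine _root_.sup_le ?_ ?_
    · rw [Submodule.span_singleton_le_iff_mem]
      exact (le_sup_left : K₁ ≤ K₁ ⊔ K₂) hx₁
    · rw [Submodule.span_singleton_le_iff_mem]
      exact (le_sup_right : K₂ ≤ K₁ ⊔ K₂) hy₂
  obtain ⟨h5, h6⟩ := mem_of_le_sup hX hrel hL h4
  exact ⟨h5, Rel.trans hC hK hE hK₁ h5 hEK₁ h6⟩

lemma Base.cl_inf (hC : Cfg 𝓛 ν) (hX : Maxi 𝓛 ν)
    (hK : ∀ v : V, v ≠ 0 → ∃ N, Base 𝓛 ν N ∧ v ∉ sp N)
    {E : Submodule F V} (hE : E ∈ 𝓛) {M : Finset (Submodule F V)} (hM : Base 𝓛 ν M)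
    (hn : ¬ cl 𝓛 ν E ≤ sp M) :
    cl 𝓛 ν E ⊓ sp M = sp (M.filter (fun G => Rel 𝓛 ν E G)) := by
  apply le_antisymm
  · rintro x ⟨hxE, hxM⟩
    by_contra hxf
    have hx0 : x ≠ 0 := by
      rintro rfl
      exact hxf (Submodule.zero_mem _)
    obtain ⟨y, hyE, hyM⟩ := SetLike.not_le_iff_exists.1 hn
    have hyx : y ∉ Submodule.span F {x} := by
      intro h
      exact hyM ((Submodule.span_singleton_le_iff_mem x _).2 hxM h)
    have hL2 := finrank_pair hx0 hyx
    set L := Submodule.span F {x} ⊔ Submodule.span F {y} with hL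
    have hxL : x ∈ L := (le_sup_left : Submodule.span F {x} ≤ L)
      (Submodule.mem_span_singleton_self _)
    have hyL : y ∈ L := (le_sup_right : Submodule.span F {y} ≤ L)
      (Submodule.mem_span_singleton_self _)
    have hLE : L ≤ cl 𝓛 ν E := by
      refine _root_.sup_le ?_ ?_
      · rw [Submodule.span_singleton_le_iff_mem]; exact hxE
      · rw [Submodule.span_singleton_le_iff_mem]; exact hyE
    obtain ⟨hL𝓛, hrel⟩ := rel_of_le_cl hC hX hK hE hL2 hLE
    have hLM : ¬ L ≤ sp M := fun h => hyM (h hyL)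
    have hdis : L ⊓ sp (M.filter (fun G => Rel 𝓛 ν E G)) = ⊥ := by
      rw [Submodule.eq_bot_iff]
      rintro u ⟨huL, huR⟩
      obtain ⟨p, hp0, hpL, hpM, hgen⟩ := hM.exists_gen hC hL𝓛 hLM
      obtain ⟨c, hc⟩ := hgen x hxL hxM
      obtain ⟨d, hd⟩ := hgen u huL (sp_mono (Finset.filter_subset _ _) huR)
      by_cases hd0 : d = 0
      · rw [← hd, hd0, zero_smul]
      · exfalso
        apply hxf
        have : x = (c * d⁻¹) • u := by
          rw [← hc, ← hd, smul_smul, mul_assoc, inv_mul_cancel₀ hd0, mul_one]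
        rw [this]
        exact Submodule.smul_mem _ _ huR
    obtain ⟨G, hGM, hGR, hGex⟩ := hM.exch hC hL𝓛 hLM (Finset.filter_subset _ _) hdis
    apply hGR
    rw [Finset.mem_filter]
    exact ⟨hGM, Rel.trans hC hK hE hL𝓛 (hM.sub G hGM) hrel
      (hM.rel_of_exch hC hK hL𝓛 hLM hGM hGex)⟩
  · refine le_inf ?_ (sp_mono (Finset.filter_subset _ _))
    apply Finset.sup_le
    intro G hG
    rw [Finset.mem_filter] at hG
    exact le_cl (hM.sub G hG.1) hG.2

lemma Base.finrank_cl (hC : Cfg 𝓛 ν) (hX : Maxi 𝓛 ν)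
    (hK : ∀ v : V, v ≠ 0 → ∃ N, Base 𝓛 ν N ∧ v ∉ sp N)
    {E : Submodule F V} (hE : E ∈ 𝓛) {M : Finset (Submodule F V)} (hM : Base 𝓛 ν M)
    (hn : ¬ cl 𝓛 ν E ≤ sp M) :
    Module.finrank F ↥(cl 𝓛 ν E) = 2 * (M.filter (fun G => Rel 𝓛 ν E G)).card + 1 := by
  have h1 := Submodule.finrank_sup_add_finrank_inf_eq (cl 𝓛 ν E) (sp M)
  rw [hM.cl_inf hC hX hK hE hn, (hM.mat.subset (Finset.filter_subset _ _)).2, hM.finrank] at h1
  have h2 : Module.finrank F ↥(cl 𝓛 ν E ⊔ sp M) = 2 * ν + 1 := by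
    apply le_antisymm
    · obtain ⟨K, hK𝓛, hEK, hKM⟩ : ∃ K ∈ 𝓛, Rel 𝓛 ν E K ∧ ¬ K ≤ sp M := by
        by_contra hall
        push Not at hall
        apply hn
        apply sSup_le
        rintro K ⟨hK𝓛, hEK⟩
        exact hall K hK𝓛 hEK
      have hKeq := hM.sup_eq hC hK𝓛 hKM
      have h3 : cl 𝓛 ν E ≤ sp M ⊔ K := by
        apply sSup_le
        rintro K' ⟨hK'𝓛, hEK'⟩
        by_contra h
        have h4 := lt_finrank_of_not_le h
        have h5 := Rel.trans hC hK hK𝓛 hE hK'𝓛 hEK.symm hEK' M hM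
        omega
      have h6 : cl 𝓛 ν E ⊔ sp M ≤ sp M ⊔ K := _root_.sup_le h3 le_sup_left
      have := Submodule.finrank_mono h6
      omega
    · have h3 := lt_finrank_of_not_le hn
      rw [hM.finrank, sup_comm] at h3
      omega
  omega

lemma Base.finrank_cl' (hC : Cfg 𝓛 ν) (hX : Maxi 𝓛 ν)
    (hK : ∀ v : V, v ≠ 0 → ∃ N, Base 𝓛 ν N ∧ v ∉ sp N)
    {E : Submodule F V} (hE : E ∈ 𝓛) {M : Finset (Submodule F V)} (hM : Base 𝓛 ν M) :
    Module.finrank F ↥(cl 𝓛 ν E) = 2 * (M.filter (fun G => Rel 𝓛 ν E G)).card + 1 := by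
  by_contra hne
  have hEne : E ≠ ⊥ := by
    intro h
    have := hC.two E hE
    rw [h, finrank_bot] at this
    omega
  obtain ⟨v, hvE, hv0⟩ := Submodule.exists_mem_ne_zero_of_ne_bot hEne
  obtain ⟨N, hN, hvN⟩ := hK v hv0
  have hEcl : E ≤ cl 𝓛 ν E := le_cl hE (Rel.refl hC hE)
  have hclN : ¬ cl 𝓛 ν E ≤ sp N := fun h => hvN (h (hEcl hvE))
  obtain ⟨M, ⟨hM, hMne⟩, hmax⟩ := exists_max
    (fun M : Finset (Submodule F V) => Base 𝓛 ν M ∧
      ¬ Module.finrank F ↥(cl 𝓛 ν E) = 2 * (M.filter (fun G => Rel 𝓛 ν E G)).card + 1)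
    (fun M => (M ∩ N).card) N.card
    (fun M _ => Finset.card_le_card Finset.inter_subset_right) ⟨M, hM, hne⟩
  have hclM : cl 𝓛 ν E ≤ sp M := by
    by_contra h
    exact hMne (hM.finrank_cl hC hX hK hE h)
  obtain ⟨n, hn, hnM⟩ : ∃ n ∈ N, ¬ n ≤ sp M := by
    by_contra hall
    push Not at hall
    have h1 : sp N ≤ sp M := Finset.sup_le hall
    have h2 : sp N = sp M := by
      apply Submodule.eq_of_le_of_finrank_le h1
      rw [hM.finrank, hN.finrank]
    apply hclN
    rw [h2]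
    exact hclM
  have hnM' : n ∉ M := fun h => hnM (le_sp h)
  have hn𝓛 := hN.sub n hn
  obtain ⟨k, hkM, hkN, hkex, hM', hcard⟩ := hM.toward hC hN hn hnM
  have hrel : Rel 𝓛 ν n k := hM.rel_of_exch hC hK hn𝓛 hnM hkM hkex
  have hk𝓛 := hM.sub k hkM
  have hiff : Rel 𝓛 ν E n ↔ Rel 𝓛 ν E k :=
    ⟨fun h => Rel.trans hC hK hE hn𝓛 hk𝓛 h hrel, fun h => Rel.trans hC hK hE hk𝓛 hn𝓛 h hrel.symm⟩
  have hfilter : ((insert n (M.erase k)).filter (fun G => Rel 𝓛 ν E G)).card =
      (M.filter (fun G => Rel 𝓛 ν E G)).card := by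
    have hM2 : M = insert k (M.erase k) := (Finset.insert_erase hkM).symm
    have hnE : n ∉ M.erase k := fun h => hnM' (Finset.mem_of_mem_erase h)
    have hkE : k ∉ M.erase k := Finset.notMem_erase k M
    conv_rhs => rw [hM2]
    rw [Finset.filter_insert, Finset.filter_insert]
    by_cases h : Rel 𝓛 ν E n
    · rw [if_pos h, if_pos (hiff.1 h), Finset.card_insert_of_notMem, Finset.card_insert_of_notMem]
      · exact fun h => hkE (Finset.mem_filter.1 h).1
      · exact fun h => hnE (Finset.mem_filter.1 h).1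
    · rw [if_neg h, if_neg (fun h' => h (hiff.2 h'))]
  have := hmax _ ⟨hM', by rw [hfilter]; exact hMne⟩
  omega

/-- Structure theorem: the planes are covered by subspaces whose half-dimensions
sum to at most `ν`. -/
theorem exists_cover (hC : Cfg 𝓛 ν) (hX : Maxi 𝓛 ν)
    (hK : ∀ v : V, v ≠ 0 → ∃ N, Base 𝓛 ν N ∧ v ∉ sp N) (hne : ∃ M, Base 𝓛 ν M) :
    ∃ Ps : Finset (Submodule F V), (∀ L ∈ 𝓛, ∃ P ∈ Ps, L ≤ P) ∧
      ∑ P ∈ Ps, finrank F P / 2 ≤ ν := by
  obtain ⟨M, hM⟩ := hne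
  have hcl : ∀ E ∈ 𝓛, ∀ G ∈ 𝓛, Rel 𝓛 ν E G → cl 𝓛 ν G = cl 𝓛 ν E := by
    intro E hE G hG h
    unfold cl
    congr 1
    ext K
    constructor
    · rintro ⟨h1, h2⟩
      exact ⟨h1, Rel.trans hC hK hE hG h1 h h2⟩
    · rintro ⟨h1, h2⟩
      exact ⟨h1, Rel.trans hC hK hG hE h1 h.symm h2⟩
  refine ⟨M.image (cl 𝓛 ν), ?_, ?_⟩
  · intro L hL
    have h1 := hM.finrank_cl' hC hX hK hL
    have hLcl : L ≤ cl 𝓛 ν L := le_cl hL (Rel.refl hC hL)
    have h2 := Submodule.finrank_mono hLcl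
    rw [hC.two L hL] at h2
    have h3 : 0 < (M.filter (fun G => Rel 𝓛 ν L G)).card := by omega
    obtain ⟨G, hG⟩ := Finset.card_pos.1 h3
    rw [Finset.mem_filter] at hG
    refine ⟨cl 𝓛 ν G, Finset.mem_image_of_mem _ hG.1, ?_⟩
    rw [hcl L hL G (hM.sub G hG.1) hG.2]
    exact hLcl
  · have hcard := Finset.card_eq_sum_card_image (cl 𝓛 ν) M
    rw [hM.card] at hcard
    refine le_trans ?_ hcard.symm.le
    apply Finset.sum_le_sum
    intro P hP
    obtain ⟨G, hG, rfl⟩ := Finset.mem_image.1 hP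
    have h1 := hM.finrank_cl' hC hX hK (hM.sub G hG)
    have h2 : M.filter (fun G' => Rel 𝓛 ν G G') ⊆
        M.filter (fun G' => cl 𝓛 ν G' = cl 𝓛 ν G) := by
      intro G' hG'
      rw [Finset.mem_filter] at hG' ⊢
      exact ⟨hG'.1, hcl G (hM.sub G hG) G' (hM.sub G' hG'.1) hG'.2⟩
    have h3 := Finset.card_le_card h2
    omega

end Basic

end Pool.Agent.Helper15
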