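import Pool.Agent.Helper15.Parity

/-!
Application of the covering theorem: a transversal of low rank.
-/

open Module Submodule

namespace Pool.Agent.Helper15

section App

open scoped Classical

universe u v w

variable {F : Type u} [Field F]

section Zorn

variable {V : Type v} [AddCommGroup V] [Module F V] [FiniteDimensional F V]

lemma exists_maxi {𝓛₀ : Set (Submodule F V)} {ν : ℕ} (hC : Cfg 𝓛₀ ν) :
    ∃ 𝓛 : Set (Submodule F V), 𝓛₀ ⊆ 𝓛 ∧ Cfg 𝓛 ν ∧ Maxi 𝓛 ν := by
  obtain ⟨𝓛, hsub, hmax⟩ := zorn_subset_nonempty {𝓛 : Set (Submodule F V) | Cfg 𝓛 ν} (by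
    intro c hc hchain hne
    refine ⟨⋃₀ c, ⟨?_, ?_⟩, fun s hs => Set.subset_sUnion_of_mem hs⟩
    · rintro L ⟨s, hs, hL⟩
      exact (hc hs).two L hL
    · intro M hM hmat
      obtain ⟨s, hs, hMs⟩ := DirectedOn.exists_mem_subset_of_finite_of_subset_sUnion hne
        hchain.directedOn (s := (M : Set (Submodule F V))) M.finite_toSet (fun L hL => hM L hL)
      exact (hc hs).le M (fun L hL => hMs hL) hmat) 𝓛₀ hC
  refine ⟨𝓛, hsub, hmax.prop, ?_⟩
  intro L hL hbase
  by_contra hL𝓛
  have hins : Cfg (insert L 𝓛) ν := by
    refine ⟨?_, ?_⟩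
    · intro K hK
      rcases hK with rfl | hK
      · exact hL
      · exact hmax.prop.two K hK
    · intro M hM hmat
      by_cases hLM : L ∈ M
      · by_contra hcard
        push Not at hcard
        have h1 : ∀ K ∈ M.erase L, K ∈ 𝓛 := by
          intro K hK
          rw [Finset.mem_erase] at hK
          exact (hM K hK.2).resolve_left hK.1
        have h2 := hmat.subset (Finset.erase_subset L M)
        have h3 := hmax.prop.le _ h1 h2
        have h4 := Finset.card_erase_of_mem hLM
        have h5 : Base 𝓛 ν (M.erase L) := ⟨h1, h2, by omega⟩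
        exact hbase _ h5 (hmat.disj hLM (Finset.erase_subset _ _) (Finset.notMem_erase _ _))
      · exact hmax.prop.le M (fun K hK => (hM K hK).resolve_left (fun h => hLM (h ▸ hK))) hmat
  have := hmax.le_of_ge hins (Set.subset_insert L 𝓛)
  exact hL𝓛 (this (Set.mem_insert L 𝓛))

end Zorn

/-- The subspace spanned by `r i` and `c i`. -/
def lin {V : Type v} [AddCommGroup V] [Module F V] {I : Type w} (r c : I → V) (i : I) :
    Submodule F V :=
  Submodule.span F {r i} ⊔ Submodule.span F {c i}

/-- The sum of the subspaces `lin r c i` over `i ∈ Y`. -/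
def isp {V : Type v} [AddCommGroup V] [Module F V] {I : Type w} (r c : I → V) (Y : Finset I) :
    Submodule F V :=
  Y.sup (lin (F := F) r c)

section Lin

variable {V : Type v} [AddCommGroup V] [Module F V] [FiniteDimensional F V] {I : Type w}
  (r c : I → V)

omit [FiniteDimensional F V] in
lemma finrank_lin_le (i : I) : finrank F (lin (F := F) r c i) ≤ 2 := by
  have h1 : finrank F (lin (F := F) r c i) ≤
    finrank F (Submodule.span F {r i}) + finrank F (Submodule.span F {c i}) :=
    Submodule.finrank_add_le_finrank_add_finrank _ _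
  have h2 : finrank F (Submodule.span F {r i}) ≤ 1 := by
    simpa using finrank_span_le_card (R := F) ({r i} : Set V)
  have h3 : finrank F (Submodule.span F {c i}) ≤ 1 := by
    simpa using finrank_span_le_card (R := F) ({c i} : Set V)
  omega

lemma finrank_isp_le (Y : Finset I) : finrank F (isp (F := F) r c Y) ≤ 2 * Y.card := by
  induction Y using Finset.induction_on with
  | empty =>
    have h0 : isp (F := F) r c ∅ = ⊥ := by simp [isp]
    rw [h0]
    simp
  | insert i Y hi ih =>
    have h0 : isp (F := F) r c (insert i Y) = lin r c i ⊔ isp r c Y := by simp [isp]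
    rw [h0, Finset.card_insert_of_notMem hi]
    have h1 : finrank F ↥(lin (F := F) r c i ⊔ isp r c Y) ≤
      finrank F (lin (F := F) r c i) + finrank F (isp (F := F) r c Y) :=
      Submodule.finrank_add_le_finrank_add_finrank _ _
    have h2 := finrank_lin_le (F := F) r c i
    omega

omit [FiniteDimensional F V] in
lemma isp_mono {Y Z : Finset I} (h : Y ⊆ Z) : isp (F := F) r c Y ≤ isp r c Z :=
  Finset.sup_mono h

omit [FiniteDimensional F V] in
lemma sp_image (Y : Finset I) : sp (Y.image (lin (F := F) r c)) = isp r c Y := by
  simp [sp, isp, Finset.sup_image]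

lemma mat_image {Y : Finset I} (hY : finrank F (isp (F := F) r c Y) = 2 * Y.card) :
    Mat (Y.image (lin (F := F) r c)) ∧ (Y.image (lin (F := F) r c)).card = Y.card := by
  have htwo : ∀ i ∈ Y, finrank F (lin (F := F) r c i) = 2 := by
    intro i hi
    have h0 : isp (F := F) r c Y = lin r c i ⊔ isp r c (Y.erase i) := by
      conv_lhs => rw [← Finset.insert_erase hi]
      simp [isp]
    have h1 : finrank F ↥(lin (F := F) r c i ⊔ isp r c (Y.erase i)) ≤
      finrank F (lin (F := F) r c i) + finrank F (isp (F := F) r c (Y.erase i)) :=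
      Submodule.finrank_add_le_finrank_add_finrank _ _
    have h2 := finrank_lin_le (F := F) r c i
    have h3 := finrank_isp_le (F := F) r c (Y.erase i)
    have h4 := Finset.card_erase_of_mem hi
    have h5 : 0 < Y.card := Finset.card_pos.2 ⟨i, hi⟩
    rw [← h0, hY] at h1
    omega
  have htwo' : ∀ L ∈ Y.image (lin (F := F) r c), finrank F L = 2 := by
    intro L hL
    obtain ⟨i, hi, rfl⟩ := Finset.mem_image.1 hL
    exact htwo i hi
  have h1 := finrank_sp_le htwo'
  rw [sp_image, hY] at h1
  have h2 : (Y.image (lin (F := F) r c)).card ≤ Y.card := Finset.card_image_le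
  have h3 : (Y.image (lin (F := F) r c)).card = Y.card := by omega
  exact ⟨⟨htwo', by rw [sp_image, hY, h3]⟩, h3⟩

omit [FiniteDimensional F V] in
lemma exists_index {M : Finset (Submodule F V)} (hM : ∀ L ∈ M, ∃ i, L = lin (F := F) r c i) :
    ∃ Y : Finset I, Y.card = M.card ∧ isp (F := F) r c Y = sp M := by
  choose g hg using hM
  refine ⟨M.attach.image (fun L => g L.1 L.2), ?_, ?_⟩
  · rw [Finset.card_image_of_injective, Finset.card_attach]
    intro L K h
    apply Subtype.ext
    rw [hg L.1 L.2, hg K.1 K.2]
    simp only at h
    rw [h]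
  · unfold isp sp
    rw [Finset.sup_image]
    rw [← Finset.sup_attach M]
    apply Finset.sup_congr rfl
    intro L _
    simp only [Function.comp, id]
    exact (hg L.1 L.2).symm

end Lin

lemma exists_functional {V : Type v} [AddCommGroup V] [Module F V] {κ : Type w} {b : κ → V}
    (hb : LinearIndependent F b) : ∃ φ : V →ₗ[F] F, ∀ k, φ (b k) = 1 := by
  let B := Basis.span hb
  obtain ⟨φ, hφ⟩ := LinearMap.exists_extend (B.constr F (fun _ => (1 : F)))
  refine ⟨φ, fun k => ?_⟩
  have h1 : (B k : V) = b k := congrArg Subtype.val (Basis.span_apply hb k)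
  have h2 := congrArg (fun ψ => ψ (B k)) hφ
  simp only [LinearMap.comp_apply, Submodule.subtype_apply, Basis.constr_basis] at h2
  rw [← h1]
  exact h2

lemma finrank_le_map_add_one {V : Type v} [AddCommGroup V] [Module F V] [FiniteDimensional F V]
    (x : V) (A : Submodule F V) :
    finrank F A ≤ finrank F (A.map (Submodule.span F {x}).mkQ) + 1 := by
  have h1 := LinearMap.finrank_range_add_finrank_ker ((Submodule.span F {x}).mkQ.domRestrict A)
  rw [LinearMap.range_domRestrict] at h1
  have h2 : finrank F (LinearMap.ker ((Submodule.span F {x}).mkQ.domRestrict A)) ≤ 1 := by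
    have h3 : (LinearMap.ker ((Submodule.span F {x}).mkQ.domRestrict A)).map A.subtype ≤
        Submodule.span F {x} := by
      rintro y ⟨z, hz, rfl⟩
      rw [SetLike.mem_coe, LinearMap.mem_ker, LinearMap.domRestrict_apply] at hz
      simpa using hz
    have h4 := Submodule.finrank_mono h3
    rw [Submodule.finrank_map_subtype_eq] at h4
    refine h4.trans ?_
    simpa using finrank_span_le_card (R := F) ({x} : Set V)
  omega

/-- Main transversal theorem: for vectors `r i`, `c i` there are a set `Y` of indices with
`r i, c i` (`i ∈ Y`) independent and scalars `t i` such that the rank of `c i + t i • r i` is at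
most `2 |Y|` plus the nullity of `r`. -/
theorem transversal {I : Type w} [Fintype I] :
    ∀ n : ℕ, ∀ (V : Type v) [AddCommGroup V] [Module F V] [FiniteDimensional F V],
      finrank F V = n → ∀ r c : I → V, ∃ (Y : Finset I) (t : I → F),
        finrank F (isp (F := F) r c Y) = 2 * Y.card ∧
        finrank F (Submodule.span F (Set.range (fun i => c i + t i • r i))) +
          finrank F (Submodule.span F (Set.range r)) ≤ 2 * Y.card + Fintype.card I := by
  intro n
  induction n using Nat.strong_induction_on with
  | _ n ih =>
  intro V _ _ _ hn r c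
  obtain ⟨Y₀, hY₀, hmax⟩ := exists_max
    (fun Y : Finset I => finrank F (isp (F := F) r c Y) = 2 * Y.card)
    (fun Y => Y.card) (Fintype.card I) (fun Y _ => Finset.card_le_univ Y)
    ⟨∅, by
      have h0 : isp (F := F) r c ∅ = ⊥ := by simp [isp]
      rw [h0]
      simp⟩
  by_cases hcase : ∃ x : V, x ≠ 0 ∧ ∀ Y : Finset I, finrank F (isp (F := F) r c Y) = 2 * Y.card →
      Y.card = Y₀.card → x ∈ isp (F := F) r c Y
  · -- contraction
    obtain ⟨x, hx0, hx⟩ := hcase
    set π := (Submodule.span F {x}).mkQ with hπ
    have hx1 : finrank F (Submodule.span F {x}) = 1 := finrank_span_singleton hx0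
    have hdim := Submodule.finrank_quotient_add_finrank (Submodule.span F {x})
    obtain ⟨Y', t, hY', ht⟩ := ih (finrank F (V ⧸ Submodule.span F {x})) (by omega)
      (V ⧸ Submodule.span F {x}) rfl (fun i => π (r i)) (fun i => π (c i))
    have hlin : ∀ i, lin (F := F) (fun i => π (r i)) (fun i => π (c i)) i =
        (lin r c i).map π := by
      intro i
      simp [lin, Submodule.map_sup, Submodule.map_span]
    have hmap : ∀ Y : Finset I, isp (F := F) (fun i => π (r i)) (fun i => π (c i)) Y =
        (isp r c Y).map π := by
      intro Y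
      induction Y using Finset.induction_on with
      | empty => simp [isp]
      | insert i Y hi ih2 =>
        have h0 : isp (F := F) r c (insert i Y) = lin r c i ⊔ isp r c Y := by simp [isp]
        have h1 : isp (F := F) (fun i => π (r i)) (fun i => π (c i)) (insert i Y) =
          lin (fun i => π (r i)) (fun i => π (c i)) i ⊔
            isp (fun i => π (r i)) (fun i => π (c i)) Y := by simp [isp]
        rw [h0, h1, Submodule.map_sup, hlin, ih2]
    have hY'le : finrank F (isp (F := F) r c Y') = 2 * Y'.card := by
      apply le_antisymm (finrank_isp_le r c Y')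
      rw [← hY', hmap]
      exact Submodule.finrank_map_le _ _
    have hlt : Y'.card < Y₀.card := by
      by_contra hge
      push Not at hge
      have hle := hmax Y' hY'le
      have hxY := hx Y' hY'le (le_antisymm hle hge)
      have h1 := LinearMap.finrank_range_add_finrank_ker (π.domRestrict (isp (F := F) r c Y'))
      rw [LinearMap.range_domRestrict, ← hmap, hY', hY'le] at h1
      have h2 : finrank F (LinearMap.ker (π.domRestrict (isp (F := F) r c Y'))) = 0 := by omega
      rw [Submodule.finrank_eq_zero] at h2
      have h3 : (⟨x, hxY⟩ : isp (F := F) r c Y') ∈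
          LinearMap.ker (π.domRestrict (isp (F := F) r c Y')) := by
        rw [LinearMap.mem_ker, LinearMap.domRestrict_apply]
        simp [hπ]
      rw [h2, Submodule.mem_bot] at h3
      exact hx0 (congrArg Subtype.val h3)
    refine ⟨Y₀, t, hY₀, ?_⟩
    have e1 : (Submodule.span F (Set.range (fun i => c i + t i • r i))).map π =
        Submodule.span F (Set.range (fun i => π (c i) + t i • π (r i))) := by
      rw [Submodule.map_span, ← Set.range_comp]
      congr 2
    have e2 : (Submodule.span F (Set.range r)).map π =
        Submodule.span F (Set.range (fun i => π (r i))) := by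
      rw [Submodule.map_span, ← Set.range_comp]
      rfl
    have h1 := finrank_le_map_add_one x
      (Submodule.span F (Set.range (fun i => c i + t i • r i)))
    have h2 := finrank_le_map_add_one x (Submodule.span F (Set.range r))
    rw [← hπ, e1] at h1
    rw [← hπ, e2] at h2
    omega
  · -- no common vector
    push Not at hcase
    set ν := Y₀.card with hν
    set 𝓛₀ : Set (Submodule F V) := {L | finrank F L = 2 ∧ ∃ i, L = lin r c i} with h𝓛₀
    have hC₀ : Cfg 𝓛₀ ν := by
      refine ⟨fun L hL => hL.1, ?_⟩
      intro M hM hmat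
      obtain ⟨Y, hYc, hYs⟩ := exists_index r c (M := M) (fun L hL => (hM L hL).2)
      have h1 : finrank F (isp (F := F) r c Y) = 2 * Y.card := by
        rw [hYs, hmat.2, hYc]
      have h2 := hmax Y h1
      omega
    obtain ⟨𝓛, hsub, hC, hX⟩ := exists_maxi hC₀
    have hbase : ∀ Y : Finset I, finrank F (isp (F := F) r c Y) = 2 * Y.card → Y.card = ν →
        Base 𝓛 ν (Y.image (lin (F := F) r c)) := by
      intro Y hY hYc
      obtain ⟨h1, h2⟩ := mat_image r c hY
      refine ⟨?_, h1, by rw [h2, hYc]⟩
      intro L hL
      apply hsub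
      refine ⟨h1.1 L hL, ?_⟩
      obtain ⟨i, _, hi⟩ := Finset.mem_image.1 hL
      exact ⟨i, hi.symm⟩
    have hK : ∀ v : V, v ≠ 0 → ∃ N, Base 𝓛 ν N ∧ v ∉ sp N := by
      intro v hv
      obtain ⟨Y, hY, hYc, hvY⟩ := hcase v hv
      exact ⟨_, hbase Y hY hYc, by rw [sp_image]; exact hvY⟩
    obtain ⟨Ps, hcov, hsum⟩ := exists_cover hC hX hK ⟨_, hbase Y₀ hY₀ rfl⟩
    obtain ⟨κ, a, ha, hspan, hli⟩ := exists_linearIndependent' F r
    have : Finite κ := Finite.of_injective a ha
    have := Fintype.ofFinite κ
    obtain ⟨φ, hφ⟩ := exists_functional hli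
    refine ⟨Y₀, fun i => if i ∈ Set.range a then -φ (c i) else 0, hY₀, ?_⟩
    have hrank : finrank F (Submodule.span F (Set.range r)) = Fintype.card κ := by
      rw [← hspan, finrank_span_eq_card hli]
    rw [hrank]
    set Qs := Ps.filter (fun P => ¬ P ≤ LinearMap.ker φ) with hQs
    set S := (Finset.univ : Finset I).filter (fun i => i ∉ Set.range a) with hS
    have hle : Submodule.span F (Set.range
        (fun i => c i + (if i ∈ Set.range a then -φ (c i) else 0) • r i)) ≤
        (Qs.sup (fun P => P ⊓ LinearMap.ker φ)) ⊔ Submodule.span F (c '' (S : Set I)) := by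
      rw [Submodule.span_le]
      rintro _ ⟨i, rfl⟩
      by_cases hi : i ∈ Set.range a
      · simp only [hi, if_true]
        obtain ⟨k, rfl⟩ := hi
        have hφr : φ (r (a k)) = 1 := hφ k
        have hker : c (a k) + -φ (c (a k)) • r (a k) ∈ LinearMap.ker φ := by
          rw [LinearMap.mem_ker]
          simp [hφr]
        have hrk : r (a k) ≠ 0 := by
          intro h
          rw [h, map_zero] at hφr
          exact zero_ne_one hφr
        have hmem : c (a k) + -φ (c (a k)) • r (a k) ∈ lin (F := F) r c (a k) := by
          apply Submodule.add_mem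
          · exact (le_sup_right : Submodule.span F {c (a k)} ≤ _)
              (Submodule.mem_span_singleton_self _)
          · apply Submodule.smul_mem
            exact (le_sup_left : Submodule.span F {r (a k)} ≤ _)
              (Submodule.mem_span_singleton_self _)
        by_cases h2 : c (a k) ∈ Submodule.span F {r (a k)}
        · obtain ⟨s, hs⟩ := Submodule.mem_span_singleton.1 h2
          have hz : c (a k) + -φ (c (a k)) • r (a k) = 0 := by
            rw [← hs]
            simp [hφr]
          rw [hz]
          exact Submodule.zero_mem _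
        · have h3 : finrank F (lin (F := F) r c (a k)) = 2 := finrank_pair hrk h2
          obtain ⟨P, hP, hLP⟩ := hcov (lin r c (a k)) (hsub ⟨h3, a k, rfl⟩)
          have hPQ : P ∈ Qs := by
            rw [hQs, Finset.mem_filter]
            refine ⟨hP, fun h => ?_⟩
            have hrP : r (a k) ∈ P := hLP ((le_sup_left : Submodule.span F {r (a k)} ≤ _)
              (Submodule.mem_span_singleton_self _))
            have := h hrP
            rw [LinearMap.mem_ker, hφr] at this
            exact one_ne_zero this
          have h4 : P ⊓ LinearMap.ker φ ≤ Qs.sup (fun P => P ⊓ LinearMap.ker φ) :=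
            Finset.le_sup (f := fun P => P ⊓ LinearMap.ker φ) hPQ
          exact (le_sup_left : Qs.sup (fun P => P ⊓ LinearMap.ker φ) ≤ _) (h4 ⟨hLP hmem, hker⟩)
      · simp only [hi, if_false, zero_smul, add_zero]
        apply (le_sup_right : Submodule.span F (c '' (S : Set I)) ≤ _)
        apply Submodule.subset_span
        refine ⟨i, ?_, rfl⟩
        simp only [hS, Finset.coe_filter, Finset.mem_univ, true_and, Set.mem_ofPred_eq]
        exact hi
    have hfin := Submodule.finrank_mono hle
    have h1 : finrank F ↥((Qs.sup (fun P => P ⊓ LinearMap.ker φ)) ⊔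
        Submodule.span F (c '' (S : Set I))) ≤
        finrank F ↥(Qs.sup (fun P => P ⊓ LinearMap.ker φ)) +
          finrank F (Submodule.span F (c '' (S : Set I))) :=
      Submodule.finrank_add_le_finrank_add_finrank _ _
    have h2 : finrank F (Submodule.span F (c '' (S : Set I))) ≤ S.card := by
      have := finrank_span_finset_le_card (R := F) (S.image c)
      rw [Finset.coe_image] at this
      exact this.trans Finset.card_image_le
    have h3 : ∀ Qs' : Finset (Submodule F V), (∀ P ∈ Qs', ¬ P ≤ LinearMap.ker φ) →
        finrank F ↥(Qs'.sup (fun P => P ⊓ LinearMap.ker φ)) ≤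
          2 * ∑ P ∈ Qs', finrank F P / 2 := by
      intro Qs'
      induction Qs' using Finset.induction_on with
      | empty =>
        intro _
        have h0 : ((∅ : Finset (Submodule F V)).sup (fun P => P ⊓ LinearMap.ker φ)) = ⊥ := by
          simp
        rw [h0]
        simp
      | insert P Qs' hP ih3 =>
        intro hall
        have h0 : ((insert P Qs').sup (fun P => P ⊓ LinearMap.ker φ)) =
          (P ⊓ LinearMap.ker φ) ⊔ (Qs'.sup (fun P => P ⊓ LinearMap.ker φ)) := by simp
        rw [h0, Finset.sum_insert hP]
        have h4 : finrank F ↥((P ⊓ LinearMap.ker φ) ⊔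
            (Qs'.sup (fun P => P ⊓ LinearMap.ker φ))) ≤ finrank F ↥(P ⊓ LinearMap.ker φ) +
            finrank F ↥(Qs'.sup (fun P => P ⊓ LinearMap.ker φ)) :=
          Submodule.finrank_add_le_finrank_add_finrank _ _
        have h5 := ih3 (fun P' hP' => hall P' (Finset.mem_insert_of_mem hP'))
        have h6 : finrank F ↥(P ⊓ LinearMap.ker φ) < finrank F P := by
          apply Submodule.finrank_lt_finrank_of_lt
          refine lt_of_le_of_ne inf_le_left ?_
          intro h
          exact hall P (Finset.mem_insert_self _ _) (inf_eq_left.1 h)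
        omega
    have h4 := h3 Qs (fun P hP => (Finset.mem_filter.1 hP).2)
    have h5 : ∑ P ∈ Qs, finrank F P / 2 ≤ ∑ P ∈ Ps, finrank F P / 2 :=
      Finset.sum_le_sum_of_subset (Finset.filter_subset _ _)
    have h6 : S.card + Fintype.card κ = Fintype.card I := by
      have h7 : (Finset.univ.filter (fun i => i ∈ Set.range a)).card = Fintype.card κ := by
        have h8 : Finset.univ.filter (fun i => i ∈ Set.range a) =
            (Finset.univ : Finset κ).image a := by
          ext i
          simp
        rw [h8, Finset.card_image_of_injective _ ha, Finset.card_univ]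
      have h9 : (Finset.univ.filter (fun i => i ∈ Set.range a)).card + S.card =
          (Finset.univ : Finset I).card := by
        rw [hS]
        convert Finset.card_filter_add_card_filter_not (s := (Finset.univ : Finset I))
          (fun i => i ∈ Set.range a)
      rw [h7, Finset.card_univ] at h9
      omega
    beta_reduce
    omega

end App

end Pool.Agent.Helper15
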